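import Pool.Agent.N375.RF.Stm

/-! RF/FewLeaves: few members have few end vertices. -/

set_option autoImplicit false
set_option linter.dupNamespace false

namespace Pool.Agent.N375.RF.FewL

open Finset Classical
open Pool.Agent.N375.RF

noncomputable section

/-- the number of the members with fewer than `m` end vertices -/
def g (P : (n : ℕ) → Set (SimpleGraph (Fin n))) (n m : ℕ) : ℕ :=
  ({G | G ∈ P n ∧ (endv G).card < m} : Set (SimpleGraph (Fin n))).ncard

theorem iter (h : StLeafStep) (P : (n : ℕ) → Set (SimpleGraph (Fin n))) (hP : LeafClosed P)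
    (n m : ℕ) : ∀ d : ℕ, g P n m * (n + d).factorial * n ^ d ≤
      n.factorial * (m + 2 * d) ^ d * g P (n + d) (m + 2 * d) := by
  intro d
  induction d with
  | zero => simp [mul_comm]
  | succ d ih =>
    have h1 : g P (n + d) (m + 2 * d) * ((n + d + 1) * (n + d)) ≤
        (m + 2 * d + 1) * g P (n + d + 1) (m + 2 * d + 2) := h P hP (n + d) (m + 2 * d)
    calc g P n m * (n + (d + 1)).factorial * n ^ (d + 1)
        = (g P n m * (n + d).factorial * n ^ d) * ((n + d + 1) * n) := by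
          rw [show n + (d + 1) = (n + d) + 1 by ring, Nat.factorial_succ, pow_succ]
          ring
      _ ≤ (n.factorial * (m + 2 * d) ^ d * g P (n + d) (m + 2 * d)) * ((n + d + 1) * (n + d)) := by
          refine Nat.mul_le_mul ih (Nat.mul_le_mul_left _ (by omega))
      _ = (n.factorial * (m + 2 * d) ^ d) *
          (g P (n + d) (m + 2 * d) * ((n + d + 1) * (n + d))) := by ring
      _ ≤ (n.factorial * (m + 2 * d) ^ d) *
          ((m + 2 * d + 1) * g P (n + d + 1) (m + 2 * d + 2)) := Nat.mul_le_mul_left _ h1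
      _ = n.factorial * ((m + 2 * d) ^ d * (m + 2 * d + 1)) *
          g P (n + d + 1) (m + 2 * d + 2) := by ring
      _ ≤ n.factorial * ((m + 2 * (d + 1)) ^ d * (m + 2 * (d + 1))) *
          g P (n + d + 1) (m + 2 * d + 2) := by
          refine Nat.mul_le_mul_right _ (Nat.mul_le_mul_left _ (Nat.mul_le_mul ?_ (by omega)))
          exact Nat.pow_le_pow_left (by omega) _
      _ = _ := by
          rw [pow_succ]
          rfl

theorem dens_nonneg (P : (n : ℕ) → Set (SimpleGraph (Fin n))) (n : ℕ) : 0 ≤ dens P n := by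
  unfold Pool.Agent.N375.RF.dens; positivity

theorem ncard_eq (P : (n : ℕ) → Set (SimpleGraph (Fin n))) (n : ℕ) :
    ((P n).ncard : ℝ) = dens P n * n.factorial := by
  unfold Pool.Agent.N375.RF.dens
  field_simp

theorem real_iter (h : StLeafStep) (P : (n : ℕ) → Set (SimpleGraph (Fin n))) (hP : LeafClosed P)
    (n m d : ℕ) : (g P n m : ℝ) * (n : ℝ) ^ d ≤
      n.factorial * ((m : ℝ) + 2 * d) ^ d * dens P (n + d) := by
  have h1 := iter h P hP n m d
  have h2 : g P (n + d) (m + 2 * d) ≤ (P (n + d)).ncard :=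
    Set.ncard_le_ncard (fun G hG => hG.1) (Set.toFinite _)
  have h3 : g P n m * (n + d).factorial * n ^ d ≤
      n.factorial * (m + 2 * d) ^ d * (P (n + d)).ncard :=
    h1.trans (Nat.mul_le_mul_left _ h2)
  have h4 : (g P n m : ℝ) * (n + d).factorial * (n : ℝ) ^ d ≤
      n.factorial * ((m : ℝ) + 2 * d) ^ d * ((P (n + d)).ncard : ℝ) := by
    exact_mod_cast h3
  rw [ncard_eq] at h4
  have h5 : (0 : ℝ) < (n + d).factorial := by exact_mod_cast Nat.factorial_pos _
  refine le_of_mul_le_mul_right ?_ h5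
  calc (g P n m : ℝ) * (n : ℝ) ^ d * (n + d).factorial
      = (g P n m : ℝ) * (n + d).factorial * (n : ℝ) ^ d := by ring
    _ ≤ _ := h4
    _ = _ := by ring

theorem fewLeaves (h : StLeafStep) : StFewLeaves := by
  intro P hP γ hγ hgr
  obtain ⟨δ, hδ⟩ : ∃ δ : ℝ, δ = min (1 / 4) (Real.exp (-2) / (8 * γ)) := ⟨_, rfl⟩
  have hδ0 : 0 < δ := by rw [hδ]; exact lt_min (by norm_num) (by positivity)
  have hδ4 : δ ≤ 1 / 4 := by rw [hδ]; exact min_le_left _ _
  have hδγ : 8 * δ * γ ≤ Real.exp (-2) := by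
    have h1 : δ ≤ Real.exp (-2) / (8 * γ) := by rw [hδ]; exact min_le_right _ _
    rw [le_div_iff₀ (by positivity)] at h1
    linarith
  obtain ⟨U, hU⟩ : ∃ U : ℝ, U = γ * Real.exp (δ / 8) := ⟨_, rfl⟩
  obtain ⟨L, hL⟩ : ∃ L : ℝ, L = γ * Real.exp (-(δ / 8)) := ⟨_, rfl⟩
  have hL0 : 0 < L := by rw [hL]; positivity
  have hU0 : 0 < U := by rw [hU]; positivity
  have hγU : γ < U := by
    rw [hU]
    have : 1 < Real.exp (δ / 8) := by rw [Real.one_lt_exp_iff]; positivity
    nlinarith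
  have hLγ : L < γ := by
    rw [hL]
    have : Real.exp (-(δ / 8)) < 1 := by rw [Real.exp_lt_one_iff]; linarith
    nlinarith
  have hUL : U = L * Real.exp (δ / 4) := by
    rw [hU, hL, mul_assoc, ← Real.exp_add]
    congr 2
    ring
  have hU2 : U ≤ 2 * γ := by
    rw [hU]
    have h1 : Real.exp (δ / 8) ≤ Real.exp (Real.log 2) := by
      apply Real.exp_le_exp.2
      have := Real.log_two_gt_d9
      linarith
    rw [Real.exp_log (by norm_num)] at h1
    nlinarith
  have ev1 := hgr.eventually (lt_mem_nhds hLγ)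
  have ev2 := hgr.eventually (gt_mem_nhds hγU)
  obtain ⟨n1, hn1⟩ := Filter.eventually_atTop.1 (ev1.and ev2)
  have hpow : ∀ n : ℕ, 1 ≤ n → (dens P n ^ (1 / (n : ℝ))) ^ n = dens P n := by
    intro n hn
    rw [one_div]
    exact Real.rpow_inv_natCast_pow (dens_nonneg P n) (by omega)
  have hup : ∀ n : ℕ, n1 + 1 ≤ n → dens P n ≤ U ^ n := by
    intro n hn
    have h1 := (hn1 n (by omega)).2
    rw [← hpow n (by omega)]
    exact pow_le_pow_left₀ (Real.rpow_nonneg (dens_nonneg P n) _) h1.le n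
  have hlow : ∀ n : ℕ, n1 + 1 ≤ n → L ^ n ≤ dens P n := by
    intro n hn
    have h1 := (hn1 n (by omega)).1
    rw [← hpow n (by omega)]
    exact pow_le_pow_left₀ hL0.le h1.le n
  obtain ⟨n2, hn2⟩ := exists_nat_ge (2 * Real.exp 2 / δ ^ 2)
  obtain ⟨n3, hn3⟩ := exists_nat_ge (1 / δ)
  refine ⟨δ, hδ0, max (n1 + 1) (max n2 n3), fun n hn => ?_⟩
  have hA : n1 + 1 ≤ n := (le_max_left _ _).trans hn
  have hB : 2 * Real.exp 2 / δ ^ 2 ≤ (n : ℝ) :=
    hn2.trans (by exact_mod_cast ((le_max_left _ _).trans (le_max_right _ _)).trans hn)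
  have hC : 1 / δ ≤ (n : ℝ) :=
    hn3.trans (by exact_mod_cast ((le_max_right _ _).trans (le_max_right _ _)).trans hn)
  have hn0 : (0 : ℝ) < n := lt_of_lt_of_le (by positivity) hC
  have hδn : 1 ≤ δ * n := by
    rw [div_le_iff₀ hδ0] at hC
    linarith
  have hset : ({G | G ∈ P n ∧ ((endv G).card : ℝ) < δ * n} : Set (SimpleGraph (Fin n))) =
      {G | G ∈ P n ∧ (endv G).card < ⌈δ * n⌉₊} := by
    ext G
    simp only [Set.mem_setOf_eq, Nat.lt_ceil]
  rw [hset]
  obtain ⟨m, hm⟩ : ∃ m : ℕ, m = ⌈δ * n⌉₊ := ⟨_, rfl⟩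
  obtain ⟨d, hd⟩ : ∃ d : ℕ, d = ⌊δ * n⌋₊ := ⟨_, rfl⟩
  rw [← hm]
  show (g P n m : ℝ) ≤ _
  have hm1 : (m : ℝ) < δ * n + 1 := by rw [hm]; exact Nat.ceil_lt_add_one (by positivity)
  have hd1 : (d : ℝ) ≤ δ * n := by rw [hd]; exact Nat.floor_le (by positivity)
  have hd2 : δ * n < d + 1 := by rw [hd]; exact Nat.lt_floor_add_one _
  have hmd : (m : ℝ) + 2 * d ≤ 4 * δ * n := by linarith
  have h1 := real_iter h P hP n m d
  have h2 : (g P n m : ℝ) * (n : ℝ) ^ d ≤
      n.factorial * (4 * δ * n) ^ d * U ^ (n + d) := by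
    refine h1.trans ?_
    have h3 : ((m : ℝ) + 2 * d) ^ d ≤ (4 * δ * n) ^ d :=
      pow_le_pow_left₀ (by positivity) hmd d
    have h4 := hup (n + d) (by omega)
    have h5 := dens_nonneg P (n + d)
    gcongr
  have h3 : (g P n m : ℝ) ≤ n.factorial * ((4 * δ * U) ^ d * U ^ n) := by
    have h4 : (0 : ℝ) < (n : ℝ) ^ d := by positivity
    refine le_of_mul_le_mul_right ?_ h4
    refine h2.trans (le_of_eq ?_)
    rw [mul_pow (4 * δ) (n : ℝ) d, pow_add, mul_pow (4 * δ) U d]
    ring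
  have h4 : (4 * δ * U) ^ d ≤ Real.exp (-2 * d) := by
    have h5 : 4 * δ * U ≤ Real.exp (-2) := by
      refine le_trans ?_ hδγ
      nlinarith
    calc (4 * δ * U) ^ d ≤ Real.exp (-2) ^ d := pow_le_pow_left₀ (by positivity) h5 d
      _ = Real.exp (-2 * d) := by rw [← Real.exp_nat_mul, mul_comm]
  have h5 : U ^ n ≤ Real.exp (δ / 4 * n) * dens P n := by
    rw [hUL, mul_pow, ← Real.exp_nat_mul, mul_comm (n : ℝ) (δ / 4), mul_comm]
    have := hlow n hA
    gcongr
  have h6 : (g P n m : ℝ) ≤ Real.exp (-2 * d) * Real.exp (δ / 4 * n) * ((P n).ncard : ℝ) := by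
    rw [ncard_eq]
    calc (g P n m : ℝ) ≤ n.factorial * ((4 * δ * U) ^ d * U ^ n) := h3
      _ ≤ n.factorial * (Real.exp (-2 * d) * (Real.exp (δ / 4 * n) * dens P n)) := by
          gcongr
      _ = _ := by ring
  refine h6.trans ?_
  refine mul_le_mul_of_nonneg_right ?_ (Nat.cast_nonneg _)
  rw [← Real.exp_add]
  have h7 : Real.exp (-2 * d + δ / 4 * n) ≤ Real.exp (2 - δ * n) := by
    apply Real.exp_le_exp.2
    nlinarith
  refine h7.trans ?_
  rw [Real.exp_sub, one_div, le_inv_comm₀ (by positivity) hn0, inv_div,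
    le_div_iff₀ (Real.exp_pos _)]
  have h8 := Real.pow_div_factorial_le_exp (δ * n) (by positivity) 2
  have h9 : ((2 : ℕ).factorial : ℝ) = 2 := by norm_num [Nat.factorial]
  rw [h9] at h8
  refine le_trans ?_ h8
  rw [div_le_iff₀ (by positivity)] at hB
  rw [le_div_iff₀ (by norm_num)]
  nlinarith

end

end Pool.Agent.N375.RF.FewL
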