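import Pool.Agent.N375.RF.MainC

set_option autoImplicit false
set_option linter.dupNamespace false
set_option linter.unusedSectionVars false

/-!
# Project RF: assembly on forests, part D (asymptotics)
-/

namespace Pool.Agent.N375.RF

open Finset Classical Filter

/-- the numerical part -/
theorem numeric (α : ℝ) (hα : 0 < α) (hα2 : α ≤ 1 / 2) :
    ∃ c : ℝ, 0 < c ∧ ∃ n₀ : ℕ, ∀ n : ℕ, n₀ ≤ n → ∃ T Λ D : ℕ,
      0 < (n : ℝ) ∧ 4 / α ≤ (D : ℝ) ∧ 2 ≤ D ∧ D + 3 ≤ T ∧ 3 * T ≤ Λ ∧ 4 / α ≤ (Λ : ℝ) ∧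
      (n : ℝ) ≤ Real.exp ((Λ : ℝ) / 8) ∧ 16 * ((Λ : ℝ) + 1) ≤ α / 8 * (n : ℝ) ∧
      (16 / (α * (n : ℝ)) + 4 * T / (α * (n : ℝ)) * (2 / (α / 8)) ^ T +
        4 / (α * (α / 8) * (n : ℝ)) +
        ((Λ : ℝ) + 1) * (16 / (α / 8) * Real.exp (-((T : ℝ) / 4)) +
          64 * Λ / ((α / 8) ^ 2 * (n : ℝ)) +
          Real.exp 2 * (Λ : ℝ) ^ 3 * Real.exp (-((T : ℝ) / 4)))) ≤ (n : ℝ) ^ (-c) := by
  set β := α / 8 with hβ
  have hβ0 : 0 < β := by positivity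
  set q := 2 / β with hq
  have hq32 : 32 ≤ q := by
    rw [hq, hβ, le_div_iff₀ (by positivity)]
    linarith
  set lq := Real.log q with hlq
  have hlq3 : 3 < lq := by
    have h1 : Real.exp 3 < q := by
      have h2 : Real.exp 1 < 2.7182818286 := Real.exp_one_lt_d9
      have h3 : Real.exp 3 = Real.exp 1 ^ 3 := by rw [← Real.exp_nat_mul]; norm_num
      rw [h3]
      have h4 : Real.exp 1 ^ 3 < (2.7182818286 : ℝ) ^ 3 := by
        gcongr
      have h5 : (2.7182818286 : ℝ) ^ 3 < 32 := by norm_num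
      linarith
    rw [hlq, Real.lt_log_iff_exp_lt (by linarith)]
    exact h1
  set τ := 1 / (4 * lq) with hτ
  have hτ0 : 0 < τ := by positivity
  have hτ1 : τ ≤ 1 / 12 := by
    rw [hτ]
    apply one_div_le_one_div_of_le (by norm_num)
    linarith
  set c := min (τ / 8) (1 / 8) with hc
  have hc0 : 0 < c := lt_min (by positivity) (by norm_num)
  have hcτ : c ≤ τ / 8 := min_le_left _ _
  have hc8 : c ≤ 1 / 8 := min_le_right _ _
  set K := 16 / α + 4 / α + 4 / (α * β) + 320 / β + 6400 / β ^ 2 + 20000 * Real.exp 2 with hK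
  have hlog : Tendsto (fun n : ℕ => Real.log (n : ℝ)) atTop atTop :=
    Real.tendsto_log_atTop.comp tendsto_natCast_atTop_atTop
  have e1 : ∀ᶠ n : ℕ in atTop, 1 ≤ n := eventually_ge_atTop 1
  have e2 : ∀ᶠ n : ℕ in atTop, 1 ≤ Real.log (n : ℝ) := hlog.eventually_ge_atTop 1
  have e3 : ∀ᶠ n : ℕ in atTop, ((⌈4 / α⌉₊ : ℝ) + 4) / τ ≤ Real.log (n : ℝ) :=
    hlog.eventually_ge_atTop _
  have e4 : ∀ᶠ n : ℕ in atTop, 4 / α ≤ Real.log (n : ℝ) := hlog.eventually_ge_atTop _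
  have hlo : ∀ r s : ℝ, 0 < s → ∀ ε : ℝ, 0 < ε →
      ∀ᶠ n : ℕ in atTop, Real.log (n : ℝ) ^ r ≤ ε * (n : ℝ) ^ s := by
    intro r s hs ε hε
    have h1 := (isLittleO_log_rpow_rpow_atTop r hs).bound hε
    have h2 := tendsto_natCast_atTop_atTop.eventually h1
    filter_upwards [h2, e1] with n hn hn1
    have hn0 : (1 : ℝ) ≤ (n : ℝ) := by exact_mod_cast hn1
    rw [Real.norm_of_nonneg (Real.rpow_nonneg (Real.log_nonneg hn0) r),
      Real.norm_of_nonneg (Real.rpow_nonneg (by linarith) s)] at hn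
    exact hn
  have e5 : ∀ᶠ n : ℕ in atTop, Real.log (n : ℝ) ^ (4 : ℝ) ≤ (1 / K) * (n : ℝ) ^ c :=
    hlo 4 c hc0 (1 / K) (by positivity)
  have e6 : ∀ᶠ n : ℕ in atTop, Real.log (n : ℝ) ^ (1 : ℝ) ≤ (β / 160) * (n : ℝ) ^ (1 : ℝ) :=
    hlo 1 1 one_pos _ (by positivity)
  obtain ⟨n₀, hn₀⟩ := eventually_atTop.mp
    ((e1.and e2).and ((e3.and e4).and (e5.and e6)))
  refine ⟨c, hc0, n₀, fun n hn => ?_⟩
  obtain ⟨⟨g1, g2⟩, ⟨g3, g4⟩, g5, g6⟩ := hn₀ n hn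
  set ℓ := Real.log (n : ℝ) with hℓ
  set x := (n : ℝ) with hx
  have hx1 : 1 ≤ x := by rw [hx]; exact_mod_cast g1
  have hx0 : 0 < x := by linarith
  set T := ⌊τ * ℓ⌋₊ with hT
  set Λ := ⌈8 * ℓ⌉₊ with hΛ
  set D := ⌈4 / α⌉₊ with hD
  have hTle : (T : ℝ) ≤ τ * ℓ := Nat.floor_le (by positivity)
  have hTge : τ * ℓ - 1 < (T : ℝ) := by
    have := Nat.lt_floor_add_one (τ * ℓ)
    linarith
  have hΛge : 8 * ℓ ≤ (Λ : ℝ) := Nat.le_ceil _
  have hΛlt : (Λ : ℝ) < 8 * ℓ + 1 := Nat.ceil_lt_add_one (by positivity)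
  have hTℓ : (T : ℝ) ≤ ℓ := by nlinarith
  have hT0 : (0 : ℝ) ≤ (T : ℝ) := by positivity
  have hΛ0 : (0 : ℝ) ≤ (Λ : ℝ) := by positivity
  have hΛ10 : (Λ : ℝ) + 1 ≤ 10 * ℓ := by linarith
  have hxexp : x = Real.exp ℓ := (Real.exp_log hx0).symm
  -- powers
  have p1 : x⁻¹ ≤ x ^ (-(2 * c)) := by
    rw [← Real.rpow_neg_one]
    apply Real.rpow_le_rpow_of_exponent_le hx1
    linarith
  have p2 : x⁻¹ * q ^ T ≤ x ^ (-(2 * c)) := by
    have h1 : q ^ T ≤ x ^ (1 / 4 : ℝ) := by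
      have hq0 : 0 < q := by linarith
      rw [← Real.exp_log (show 0 < q ^ T by positivity), Real.log_pow, hxexp,
        ← Real.exp_mul]
      apply Real.exp_le_exp.mpr
      rw [← hlq]
      calc (T : ℝ) * lq ≤ τ * ℓ * lq := by gcongr
        _ = ℓ * (1 / 4) := by
          rw [hτ]
          have : lq ≠ 0 := by linarith
          field_simp
    calc x⁻¹ * q ^ T ≤ x⁻¹ * x ^ (1 / 4 : ℝ) := by gcongr
      _ = x ^ (-(3 / 4) : ℝ) := by
        rw [← Real.rpow_neg_one, ← Real.rpow_add hx0]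
        norm_num
      _ ≤ x ^ (-(2 * c)) := by
        apply Real.rpow_le_rpow_of_exponent_le hx1
        linarith
  have p3 : Real.exp (-((T : ℝ) / 4)) ≤ 2 * x ^ (-(2 * c)) := by
    have h1 : Real.exp (-((T : ℝ) / 4)) ≤ Real.exp (1 / 4) * x ^ (-(τ / 4)) := by
      rw [hxexp, ← Real.exp_mul, ← Real.exp_add]
      apply Real.exp_le_exp.mpr
      nlinarith
    have h2 : Real.exp (1 / 4) ≤ 2 := by
      have h3 : Real.exp (1 / 4) ≤ Real.exp (Real.log 2) := by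
        apply Real.exp_le_exp.mpr
        have := Real.log_two_gt_d9
        linarith
      rwa [Real.exp_log (by norm_num)] at h3
    have h3 : x ^ (-(τ / 4)) ≤ x ^ (-(2 * c)) := by
      apply Real.rpow_le_rpow_of_exponent_le hx1
      linarith
    calc _ ≤ Real.exp (1 / 4) * x ^ (-(τ / 4)) := h1
      _ ≤ 2 * x ^ (-(2 * c)) := by gcongr
  set y := x ^ (-(2 * c)) with hy
  have hy0 : 0 < y := by positivity
  refine ⟨T, Λ, D, hx0, Nat.le_ceil _, ?_, ?_, ?_, ?_, ?_, ?_, ?_⟩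
  · have h1 : (4 / α : ℝ) ≤ (D : ℝ) := Nat.le_ceil _
    have h2 : (8 : ℝ) ≤ 4 / α := by
      rw [le_div_iff₀ hα]; linarith
    have h3 : (2 : ℝ) ≤ (D : ℝ) := by linarith
    exact_mod_cast h3
  · have h1 : ((D : ℝ) + 4) ≤ τ * ℓ := by
      rw [div_le_iff₀ hτ0] at g3
      linarith
    have h2 : (D : ℝ) + 3 < (T : ℝ) := by linarith
    have h3 : ((D + 3 : ℕ) : ℝ) < (T : ℝ) := by push_cast; exact h2
    exact (Nat.cast_lt.mp h3).le
  · have h1 : ((3 * T : ℕ) : ℝ) ≤ (Λ : ℝ) := by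
      push_cast
      linarith
    exact Nat.cast_le.mp h1
  · linarith
  · rw [hxexp]
    apply Real.exp_le_exp.mpr
    linarith
  · have h1 : ℓ ≤ β / 160 * x := by
      have := g6
      rw [Real.rpow_one, Real.rpow_one] at this
      exact this
    calc 16 * ((Λ : ℝ) + 1) ≤ 16 * (10 * ℓ) := by linarith
      _ ≤ 16 * (10 * (β / 160 * x)) := by gcongr
      _ = β * x := by ring
  · -- the final estimate
    have t1 : 16 / (α * x) ≤ 16 / α * y := by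
      calc 16 / (α * x) = 16 / α * x⁻¹ := by field_simp
        _ ≤ 16 / α * y := by gcongr
    have t2 : 4 * (T : ℝ) / (α * x) * q ^ T ≤ 4 / α * ℓ * y := by
      calc 4 * (T : ℝ) / (α * x) * q ^ T = 4 / α * T * (x⁻¹ * q ^ T) := by field_simp
        _ ≤ 4 / α * ℓ * y := by gcongr
    have t3 : 4 / (α * β * x) ≤ 4 / (α * β) * y := by
      calc 4 / (α * β * x) = 4 / (α * β) * x⁻¹ := by field_simp
        _ ≤ _ := by gcongr
    have t4 : 16 / β * Real.exp (-((T : ℝ) / 4)) ≤ 32 / β * y := by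
      calc _ ≤ 16 / β * (2 * y) := by gcongr
        _ = _ := by ring
    have t5 : 64 * (Λ : ℝ) / (β ^ 2 * x) ≤ 640 / β ^ 2 * ℓ * y := by
      calc 64 * (Λ : ℝ) / (β ^ 2 * x) = 64 / β ^ 2 * Λ * x⁻¹ := by field_simp
        _ ≤ 64 / β ^ 2 * (10 * ℓ) * y := by
          gcongr
          linarith
        _ = _ := by ring
    have t6 : Real.exp 2 * (Λ : ℝ) ^ 3 * Real.exp (-((T : ℝ) / 4)) ≤
        2000 * Real.exp 2 * ℓ ^ 3 * y := by
      calc _ ≤ Real.exp 2 * (10 * ℓ) ^ 3 * (2 * y) := by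
            gcongr
            linarith
        _ = _ := by ring
    have hsum : 16 / (α * x) + 4 * (T : ℝ) / (α * x) * q ^ T + 4 / (α * β * x) +
        ((Λ : ℝ) + 1) * (16 / β * Real.exp (-((T : ℝ) / 4)) + 64 * Λ / (β ^ 2 * x) +
          Real.exp 2 * (Λ : ℝ) ^ 3 * Real.exp (-((T : ℝ) / 4))) ≤ K * ℓ ^ 4 * y := by
      have hℓ1 : 1 ≤ ℓ := g2
      have hℓ0 : 0 < ℓ := by linarith
      have q1 : (1 : ℝ) ≤ ℓ ^ 4 := one_le_pow₀ hℓ1
      have q2 : ℓ ≤ ℓ ^ 4 := le_self_pow₀ hℓ1 (by norm_num)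
      have q3 : ℓ ^ 2 ≤ ℓ ^ 4 := pow_le_pow_right₀ hℓ1 (by norm_num)
      calc _ ≤ 16 / α * y + 4 / α * ℓ * y + 4 / (α * β) * y +
          (10 * ℓ) * (32 / β * y + 640 / β ^ 2 * ℓ * y + 2000 * Real.exp 2 * ℓ ^ 3 * y) := by
            gcongr
        _ = (16 / α * 1 + 4 / α * ℓ + 4 / (α * β) * 1 + 320 / β * ℓ + 6400 / β ^ 2 * ℓ ^ 2 +
            20000 * Real.exp 2 * ℓ ^ 4) * y := by ring
        _ ≤ (16 / α * ℓ ^ 4 + 4 / α * ℓ ^ 4 + 4 / (α * β) * ℓ ^ 4 + 320 / β * ℓ ^ 4 +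
            6400 / β ^ 2 * ℓ ^ 4 + 20000 * Real.exp 2 * ℓ ^ 4) * y := by gcongr
        _ = K * ℓ ^ 4 * y := by rw [hK]; ring
    refine hsum.trans ?_
    have hK0 : 0 < K := by positivity
    have h7 : K * ℓ ^ 4 ≤ x ^ c := by
      have h8 := g5
      rw [show ℓ ^ (4 : ℝ) = ℓ ^ (4 : ℕ) by
        rw [← Real.rpow_natCast]; norm_num] at h8
      rw [one_div, ← div_eq_inv_mul, le_div_iff₀ hK0] at h8
      linarith
    calc K * ℓ ^ 4 * y ≤ x ^ c * y := by gcongr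
      _ = x ^ (-c) := by
        rw [hy, ← Real.rpow_add hx0]
        congr 1
        ring

/-- the main theorem on forests from its parts -/
theorem main (hA : StA) (hB : StB) (h0 : St0) (h2 : St2) (h4 : St4) (h10 : St10) : StMain := by
  intro α hα
  by_cases hα2 : α ≤ 1 / 2
  · obtain ⟨c, hc, n₀, hn₀⟩ := numeric α hα hα2
    refine ⟨c, hc, n₀, ?_⟩
    intro V _ C hn hC hC'
    obtain ⟨T, Λ, D, q1, q2, q3, q4, q5, q6, q7, q8, q9⟩ := hn₀ (Fintype.card V) hn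
    have h := total hA hB h0 h2 h4 h10 (C := C) hα (show 0 < α / 8 by positivity) (by linarith)
      ⌈α / 8 * (Fintype.card V : ℝ)⌉₊ T Λ D q1 hC hC' (Nat.le_ceil _) (by
        intro e he
        apply Nat.ceil_le.mpr
        have h1 : (Cᶜ.card : ℝ) ≤ 8 * (e : ℝ) := by exact_mod_cast he
        linarith) q2 q3 q4 q5 q6 q7 q8
    refine h.trans ?_
    rw [mul_comm]
    gcongr
  · refine ⟨1, one_pos, 1, ?_⟩
    intro V _ C hn hC hC'
    exfalso
    have h1 : C.card + Cᶜ.card = Fintype.card V := by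
      rw [Finset.card_add_card_compl]
    have h2 : (C.card : ℝ) + (Cᶜ.card : ℝ) = (Fintype.card V : ℝ) := by exact_mod_cast h1
    have h3 : (1 : ℝ) ≤ (Fintype.card V : ℝ) := by exact_mod_cast hn
    push Not at hα2
    nlinarith

end Pool.Agent.N375.RF
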