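import Pool.Agent.N375.RF.Basic

/-! RF/Rep: connected graph = core + rooted forest. -/

set_option autoImplicit false
set_option linter.dupNamespace false

namespace Pool.Agent.N375.RF.RepR

open Finset Classical
open Pool.Agent.N375.RF

variable {V : Type} [Fintype V]

/-- `G` is a graph on `C` with a rooted forest attached -/
def Q (G : SimpleGraph V) (C : Finset V) : Prop :=
  ∃ (K : SimpleGraph V) (p : V → V), C.Nonempty ∧ (∀ x y, K.Adj x y → x ∈ C ∧ y ∈ C) ∧
    IsRF C p ∧ G = GG K p

theorem closed {K : SimpleGraph V} {C : Finset V} {p : V → V} (hp : IsRF C p)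
    (hK : ∀ x y, K.Adj x y → x ∈ C ∧ y ∈ C) {v : V} (hv : v ∈ C) (hno : ∀ y, ¬ K.Adj v y)
    {x y : V} (hx : x ∈ L p v) (hxy : (GG K p).Adj x y) : y ∈ L p v := by
  rcases hxy with h | ⟨-, h | h⟩
  · exfalso
    have := hp.root_mem (hK x y h).1 hx
    exact hno y (this ▸ h)
  · rw [← h]
    exact (hp.p_mem hv).2 hx
  · rw [← h] at hx
    exact (hp.p_mem hv).1 hx

theorem nbr {K : SimpleGraph V} {C : Finset V} {p : V → V} (hp : IsRF C p)
    (hK : ∀ x y, K.Adj x y → x ∈ C ∧ y ∈ C) (hG : (GG K p).Connected) {v w : V} (hv : v ∈ C)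
    (hw : w ∈ C) (hvw : w ≠ v) : ∃ y, K.Adj v y := by
  by_contra hno
  push Not at hno
  have hall : ∀ x, (GG K p).Reachable v x → x ∈ L p v := by
    rintro x ⟨W⟩
    have : ∀ (a b : V) (W : (GG K p).Walk a b), a ∈ L p v → b ∈ L p v := by
      intro a b W
      induction W with
      | nil => exact id
      | cons h _ ih => exact fun ha => ih (closed hp hK hv hno ha h)
    exact this v x W (self_mem_L p v)
  exact hvw (hp.root_mem hw (hall w (hG.preconnected v w)))

theorem shrink {K : SimpleGraph V} {C : Finset V} {p : V → V} (hp : IsRF C p)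
    (hK : ∀ x y, K.Adj x y → x ∈ C ∧ y ∈ C) {v y : V} (hv : v ∈ C) (hvy : K.Adj v y)
    (huniq : ∀ z, K.Adj v z → z = y) : Q (GG K p) (C.erase v) := by
  have hy : y ∈ C := (hK v y hvy).2
  have hyv : y ≠ v := hvy.ne.symm
  have hy' : y ∈ C.erase v := mem_erase.2 ⟨hyv, hy⟩
  have hpv : p v = v := hp.fix hv
  let K' : SimpleGraph V :=
    { Adj := fun a b => K.Adj a b ∧ a ≠ v ∧ b ≠ v
      symm := ⟨fun a b h => ⟨h.1.symm, h.2.2, h.2.1⟩⟩
      loopless := ⟨fun a h => h.1.ne rfl⟩ }
  refine ⟨K', Function.update p v y, ⟨y, hy'⟩, ?_, ⟨?_, ?_⟩, ?_⟩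
  · rintro a b ⟨h, ha, hb⟩
    exact ⟨mem_erase.2 ⟨ha, (hK a b h).1⟩, mem_erase.2 ⟨hb, (hK a b h).2⟩⟩
  · intro x hx
    rw [mem_erase] at hx
    rw [Function.update_of_ne hx.1]
    exact hp.fix hx.2
  · have key : ∀ (k : ℕ) (x : V), p^[k] x ∈ C →
        ∃ j : ℕ, (Function.update p v y)^[j] x ∈ C.erase v := by
      intro k
      induction k with
      | zero =>
        intro x hx
        by_cases hxv : x = v
        · refine ⟨1, ?_⟩
          rw [Function.iterate_one, hxv, Function.update_self]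
          exact hy'
        · exact ⟨0, mem_erase.2 ⟨hxv, hx⟩⟩
      | succ k ih =>
        intro x hx
        by_cases hxv : x = v
        · refine ⟨1, ?_⟩
          rw [Function.iterate_one, hxv, Function.update_self]
          exact hy'
        · rw [Function.iterate_succ_apply] at hx
          obtain ⟨j, hj⟩ := ih (p x) hx
          refine ⟨j + 1, ?_⟩
          rw [Function.iterate_succ_apply, Function.update_of_ne hxv]
          exact hj
    intro x
    obtain ⟨k, hk⟩ := hp.2 x
    exact key k x hk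
  · ext a b
    show (K.Adj a b ∨ (a ≠ b ∧ (p a = b ∨ p b = a))) ↔
      ((K.Adj a b ∧ a ≠ v ∧ b ≠ v) ∨
        (a ≠ b ∧ (Function.update p v y a = b ∨ Function.update p v y b = a)))
    by_cases ha : a = v
    · subst ha
      by_cases hb : b = a
      · subst hb
        simp
      · rw [Function.update_self, Function.update_of_ne hb, hpv]
        constructor
        · rintro (h | ⟨h1, h2 | h2⟩)
          · exact Or.inr ⟨Ne.symm hb, Or.inl (huniq b h).symm⟩
          · exact absurd h2 h1
          · exact Or.inr ⟨h1, Or.inr h2⟩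
        · rintro (⟨-, h, -⟩ | ⟨h1, h2 | h2⟩)
          · exact absurd rfl h
          · exact Or.inl (h2 ▸ hvy)
          · exact Or.inr ⟨h1, Or.inr h2⟩
    · by_cases hb : b = v
      · subst hb
        rw [Function.update_self, Function.update_of_ne ha, hpv]
        constructor
        · rintro (h | ⟨h1, h2 | h2⟩)
          · exact Or.inr ⟨ha, Or.inr (huniq a h.symm).symm⟩
          · exact Or.inr ⟨h1, Or.inl h2⟩
          · exact absurd h2.symm h1
        · rintro (⟨-, -, h⟩ | ⟨h1, h2 | h2⟩)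
          · exact absurd rfl h
          · exact Or.inr ⟨h1, Or.inl h2⟩
          · exact Or.inl (h2 ▸ hvy.symm)
      · rw [Function.update_of_ne ha, Function.update_of_ne hb]
        simp [ha, hb]

theorem rep : StRep := by
  intro V _ G hG
  haveI := hG.nonempty
  have h0 : Q G univ := by
    refine ⟨G, id, univ_nonempty, fun x y _ => ⟨mem_univ _, mem_univ _⟩,
      ⟨fun x _ => rfl, fun x => ⟨0, mem_univ _⟩⟩, ?_⟩
    ext a b
    show G.Adj a b ↔ (G.Adj a b ∨ (a ≠ b ∧ (id a = b ∨ id b = a)))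
    constructor
    · exact Or.inl
    · rintro (h | ⟨h1, h2 | h2⟩)
      · exact h
      · exact absurd h2 h1
      · exact absurd h2.symm h1
  obtain ⟨C, hC, hmin⟩ := Finset.exists_min_image (univ.filter (Q G)) Finset.card
    ⟨univ, mem_filter.2 ⟨mem_univ _, h0⟩⟩
  obtain ⟨K, p, hne, hK, hp, hGG⟩ := (mem_filter.1 hC).2
  refine ⟨C, K, p, hp, hGG, ?_⟩
  by_cases h1 : C.card = 1
  · right
    obtain ⟨v, hv⟩ := card_eq_one.1 h1
    refine ⟨v, hv, ?_⟩
    ext a b
    simp only [SimpleGraph.bot_adj, iff_false]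
    intro hab
    obtain ⟨ha, hb⟩ := hK a b hab
    rw [hv, mem_singleton] at ha hb
    exact hab.ne (ha.trans hb.symm)
  · left
    refine ⟨⟨hK, fun v hv => ?_⟩, hne⟩
    have h2 : 1 < C.card := by
      have := hne.card_pos
      omega
    obtain ⟨w, hw, hwv⟩ := exists_mem_ne h2 v
    obtain ⟨y, hy⟩ := nbr hp hK (hGG ▸ hG) hv hw hwv
    by_contra hno
    push Not at hno
    have hQ := shrink hp hK hv hy (fun z hz => by
      by_contra hzy
      exact hno z y hzy hz hy)
    have h3 := hmin (C.erase v) (mem_filter.2 ⟨mem_univ _, hGG ▸ hQ⟩)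
    rw [card_erase_of_mem hv] at h3
    omega

end Pool.Agent.N375.RF.RepR
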