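import Mathlib

set_option autoImplicit false
set_option linter.dupNamespace false

/-!
# Project RF (helper375), page MP_552896_co: definitions and statements

Rooted forests on a finite vertex set as parent functions, the graphs obtained from a graph `K` on
the roots by attaching a rooted forest, and the statements of the project.
-/

namespace Pool.Agent.N375.RF

open Finset Classical

noncomputable section

variable {V : Type} [Fintype V]

/-! ## Rooted forests -/

/-- `p` is (the parent function of) a rooted forest on all vertices with the set of roots `C`: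
roots are fixed by `p`, and every vertex reaches a root. -/
def IsRF (C : Finset V) (p : V → V) : Prop :=
  (∀ x ∈ C, p x = x) ∧ ∀ x, ∃ k : ℕ, p^[k] x ∈ C

/-- the set of all rooted forests with the set of roots `C` -/
def RF (C : Finset V) : Finset (V → V) := univ.filter (fun p => IsRF C p)

/-- the vertex set of the tree with the root `v` (limb) -/
def L (p : V → V) (v : V) : Finset V := univ.filter (fun x => ∃ k : ℕ, p^[k] x = v)

/-- leaf: not a root, and nobody's parent -/
def Leaf (C : Finset V) (p : V → V) (z : V) : Prop := z ∉ C ∧ ∀ x, p x ≠ z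

/-- the set of the leaves -/
def leaves (C : Finset V) (p : V → V) : Finset V := univ.filter (fun z => Leaf C p z)

/-- the number of the trees of the forest with exactly `s` vertices -/
def N (C : Finset V) (p : V → V) (s : ℕ) : ℕ := (C.filter (fun v => (L p v).card = s)).card

/-- the tree on the vertex set `S` with root `v` and parent function `p` (used on `S \ {v}` only)
is isomorphic to the tree on `S'` with root `v'` and parent function `q` -/
def TIso (p : V → V) (S : Finset V) (v : V) (q : V → V) (S' : Finset V) (v' : V) : Prop :=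
  ∃ σ : V ≃ V, σ v = v' ∧ (∀ x, σ x ∈ S' ↔ x ∈ S) ∧ ∀ x ∈ S, x ≠ v → σ (p x) = q (σ x)

/-- some tree with `t` vertices becomes, after the deletion of one of its leaves, isomorphic to
another tree of the forest (with `t - 1` vertices) -/
def TB (C : Finset V) (p : V → V) (t : ℕ) : Prop :=
  ∃ v ∈ C, ∃ v' ∈ C, ∃ u, (L p v).card = t ∧ (L p v').card + 1 = t ∧ u ∈ L p v ∧ Leaf C p u ∧
    TIso p ((L p v).erase u) v p (L p v') v'

/-- the leaf `u` belongs to a tree of size `t` which without `u` is not isomorphic to any tree of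
the forest, and the leaf `z` belongs to a tree of size different from `t - 1`, `t`, `t + 1` -/
def GoodAt (C : Finset V) (p : V → V) (u z : V) : Prop :=
  Leaf C p u ∧ Leaf C p z ∧ ∃ v ∈ C, ∃ r ∈ C, u ∈ L p v ∧ z ∈ L p r ∧
    (L p r).card + 1 ≠ (L p v).card ∧ (L p r).card ≠ (L p v).card ∧
    (L p r).card ≠ (L p v).card + 1 ∧
    ∀ v' ∈ C, ¬ TIso p ((L p v).erase u) v p (L p v') v'

/-- a good forest -/
def Good (C : Finset V) (p : V → V) : Prop := ∃ u z, GoodAt C p u z

/-- rooted forests on the subset `U` of the vertices with the set of roots `C` (identity outside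
`U`) -/
def RFU (C U : Finset V) : Finset (V → V) := univ.filter (fun p =>
  (∀ x, x ∉ U ∨ x ∈ C → p x = x) ∧ (∀ x ∈ U, p x ∈ U) ∧ ∀ x ∈ U, ∃ k : ℕ, p^[k] x ∈ C)

/-- Generalised Cayley formula: `|C| n ^ (n - |C| - 1)` forests on `n` vertices. -/
def StCayley : Prop := ∀ (V : Type) [Fintype V] (C U : Finset V), C ⊆ U →
  (RFU C U).card * U.card = C.card * U.card ^ (U \ C).card

/-- Lemma A -/
def StA : Prop := ∀ (V : Type) [Fintype V] (C : Finset V) (a M ν : ℕ), 1 ≤ M →
  ((RF C).filter (fun p => a ≤ (leaves C p).card ∧ N C p (M + 1) = 0 ∧ ν ≤ N C p M)).card *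
      (ν * M * (a - M)) ≤
    (RF C).card * (2 * (M + 1) * Fintype.card V)

/-- Lemma B -/
def StB : Prop := ∀ (V : Type) [Fintype V] (C : Finset V) (a M ν b : ℕ), 2 ≤ M →
  ((RF C).filter (fun p => a ≤ (leaves C p).card ∧ N C p (M + 1) = 0 ∧ N C p M < b ∧
      ν ≤ N C p (M - 1))).card * (ν * (M - 1) * (a - M - M * b)) ≤
    (RF C).card * (b * M * Fintype.card V)

/-- Lemma 0 -/
def St0 : Prop := ∀ (V : Type) [Fintype V] (C : Finset V) (a T Λ : ℕ), 1 ≤ T → 3 * T ≤ Λ →
  ((RF C).filter (fun p => a ≤ (leaves C p).card ∧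
      ∀ s, T ≤ s → s ≤ Λ → N C p s = 0)).card *
      ((C.card - Fintype.card V / Λ) * (a - 2 * T) ^ T) ≤
    (RF C).card * (2 * T * Fintype.card V ^ T)

/-- Lemma 2 -/
def St2 : Prop := ∀ (V : Type) [Fintype V] (C : Finset V) (a D : ℕ), 2 ≤ D →
  ((RF C).filter (fun p => a ≤ (leaves C p).card ∧
      ∀ s, 2 ≤ s → s ≤ D → N C p s = 0)).card * ((C.card - Fintype.card V / D) * a) ≤
    (RF C).card * (2 * Fintype.card V)

/-- Lemma 4 -/
def St4 : Prop := ∀ (V : Type) [Fintype V] (C : Finset V) (t b₁ b₂ : ℕ), 3 ≤ t →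
  ((RF C).filter (fun p => N C p t ≤ b₁ ∧ N C p (t - 1) ≤ b₂ ∧ TB C p t)).card *
      (t - 1) ^ (t - 3) ≤
    (RF C).card * (b₁ * b₂ * t * (t - 2).factorial)

/-- Lemma 10: few forests have few leaves -/
def St10 : Prop := ∀ (V : Type) [Fintype V] (C : Finset V), C.Nonempty →
  ((RF C).filter (fun p => 8 * (leaves C p).card < Cᶜ.card)).card * Cᶜ.card ≤ 16 * (RF C).card

/-- The main theorem on forests -/
def StMain : Prop := ∀ α : ℝ, 0 < α → ∃ c : ℝ, 0 < c ∧ ∃ n₀ : ℕ,
  ∀ (V : Type) [Fintype V] (C : Finset V), n₀ ≤ Fintype.card V →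
    α * (Fintype.card V : ℝ) ≤ (C.card : ℝ) → α * (Fintype.card V : ℝ) ≤ (Cᶜ.card : ℝ) →
    (((RF C).filter (fun p => ¬ Good C p)).card : ℝ) ≤
      (Fintype.card V : ℝ) ^ (-c) * ((RF C).card : ℝ)

/-! ## Graphs -/

/-- the graph `K` together with the edges between `x` and `p x` -/
def GG (K : SimpleGraph V) (p : V → V) : SimpleGraph V where
  Adj x y := K.Adj x y ∨ (x ≠ y ∧ (p x = y ∨ p y = x))
  symm := ⟨fun _ _ h => h.imp (fun h => h.symm) (fun h => ⟨h.1.symm, h.2.symm⟩)⟩
  loopless := ⟨fun _ h => h.elim (fun h => h.ne rfl) (fun h => h.1 rfl)⟩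

/-- `K` lives on `C`, and all vertices in `C` have at least two neighbours in `K` -/
def IsCore (K : SimpleGraph V) (C : Finset V) : Prop :=
  (∀ x y, K.Adj x y → x ∈ C ∧ y ∈ C) ∧ ∀ x ∈ C, ∃ y z, y ≠ z ∧ K.Adj x y ∧ K.Adj x z

/-- `G - v` and `H - w` are isomorphic -/
def CardIso {V W : Type} (G : SimpleGraph V) (v : V) (H : SimpleGraph W) (w : W) : Prop :=
  ∃ e : {x : V // x ≠ v} ≃ {y : W // y ≠ w}, ∀ x y, H.Adj (e x : W) (e y : W) ↔ G.Adj (x : V) (y : V)

/-- `G` is determined by its number of edges and the two cards `G - a` and `G - b` -/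
def TwoAt {V : Type} (G : SimpleGraph V) (a b : V) : Prop :=
  a ≠ b ∧ ∀ (W : Type) [Fintype W] (H : SimpleGraph W) (a' b' : W), a' ≠ b' →
    H.edgeSet.ncard = G.edgeSet.ncard → CardIso G a H a' → CardIso G b H b' →
    ∃ e : V ≃ W, ∀ x y, H.Adj (e x) (e y) ↔ G.Adj x y

/-- `G` is determined by two of its cards and the number of edges -/
def TwoCards {V : Type} (G : SimpleGraph V) : Prop := ∃ a b, TwoAt G a b

/-- The deterministic part, forests -/
def StDetRF : Prop := ∀ (V : Type) [Fintype V] (C : Finset V) (p : V → V) (u z w y : V)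
  (σ : V ≃ V), IsRF C p → GoodAt C p u z → w ≠ u → Leaf C (Function.update p u w) y → σ z = y →
  (∀ x, σ x ∈ C ↔ x ∈ C) → (∀ x, x ≠ z → σ (p x) = Function.update p u w (σ x)) →
  ∃ θ : V ≃ V, (∀ x ∈ C, θ x = x) ∧ ∀ x, θ (p x) = Function.update p u w (θ x)

/-- The deterministic part, graphs -/
def StDet : Prop := ∀ (V : Type) [Fintype V] (K : SimpleGraph V) (C : Finset V) (p : V → V)
  (u z : V), IsCore K C → IsRF C p → GoodAt C p u z → TwoAt (GG K p) u z

/-- Representation of connected graphs -/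
def StRep : Prop := ∀ (V : Type) [Fintype V] (G : SimpleGraph V), G.Connected →
  ∃ (C : Finset V) (K : SimpleGraph V) (p : V → V), IsRF C p ∧ G = GG K p ∧
    (IsCore K C ∧ C.Nonempty ∨ ∃ v, C = {v} ∧ K = ⊥)

/-- Uniqueness of the 2-core and of the parent function -/
def StUniq : Prop := ∀ (V : Type) [Fintype V] (K K' : SimpleGraph V) (C C' : Finset V)
  (p p' : V → V), IsCore K C → IsRF C p → IsCore K' C' → IsRF C' p' → GG K p = GG K' p' →
  C = C' ∧ K = K' ∧ p = p'

/-! ## Classes of graphs -/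

/-- the vertices with exactly one neighbour -/
def endv (G : SimpleGraph V) : Finset V := univ.filter (fun x => ∃! y, G.Adj x y)

/-- A class of finite graphs, given by its members on the vertex sets `Fin n`: closed under
isomorphism, and for every graph `G` with an end vertex `u`, `G` belongs to the class if and only
if `G - u` does. -/
def LeafClosed (P : (n : ℕ) → Set (SimpleGraph (Fin n))) : Prop :=
  (∀ (n : ℕ) (e : Fin n ≃ Fin n) (G : SimpleGraph (Fin n)), G ∈ P n → G.comap e ∈ P n) ∧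
  ∀ (n : ℕ) (G : SimpleGraph (Fin (n + 1))) (u : Fin (n + 1)), (∃! y, G.Adj u y) →
    (G ∈ P (n + 1) ↔ G.comap u.succAbove ∈ P n)

/-- the number of members on `n` vertices divided by `n!` -/
def dens (P : (n : ℕ) → Set (SimpleGraph (Fin n))) (n : ℕ) : ℝ :=
  ((P n).ncard : ℝ) / (n.factorial : ℝ)

/-- the class has the growth constant `γ` -/
def Growth (P : (n : ℕ) → Set (SimpleGraph (Fin n))) (γ : ℝ) : Prop :=
  Filter.Tendsto (fun n : ℕ => dens P n ^ (1 / (n : ℝ))) Filter.atTop (nhds γ)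

/-- membership of a graph on an arbitrary finite set -/
def PP (P : (n : ℕ) → Set (SimpleGraph (Fin n))) {W : Type} [Fintype W] (G : SimpleGraph W) :
    Prop := ∃ e : Fin (Fintype.card W) ≃ W, G.comap e ∈ P (Fintype.card W)

/-- one leaf is attached -/
def StLeafStep : Prop := ∀ P, LeafClosed P → ∀ n m : ℕ,
  ({G | G ∈ P n ∧ (endv G).card < m} : Set (SimpleGraph (Fin n))).ncard * ((n + 1) * n) ≤
    (m + 1) *
      ({G | G ∈ P (n + 1) ∧ (endv G).card < m + 2} : Set (SimpleGraph (Fin (n + 1)))).ncard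

/-- few members have few end vertices -/
def StFewLeaves : Prop := ∀ P, LeafClosed P → ∀ γ : ℝ, 0 < γ → Growth P γ →
  ∃ α : ℝ, 0 < α ∧ ∃ n₀ : ℕ, ∀ n : ℕ, n₀ ≤ n →
    (({G | G ∈ P n ∧ ((endv G).card : ℝ) < α * n} : Set (SimpleGraph (Fin n))).ncard : ℝ) ≤
      (1 / (n : ℝ)) * ((P n).ncard : ℝ)

/-- the graph `G` has the core `C` (or is a tree, if `C` has one element) -/
def Rep {V : Type} [Fintype V] (G : SimpleGraph V) (C : Finset V) : Prop :=
  ∃ (K : SimpleGraph V) (p : V → V), IsRF C p ∧ G = GG K p ∧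
    (IsCore K C ∧ C.Nonempty ∨ ∃ v, C = {v} ∧ K = ⊥)

/-- the membership does not depend on the forest -/
def StInv : Prop := ∀ P, LeafClosed P → ∀ (n : ℕ) (K : SimpleGraph (Fin n)) (C : Finset (Fin n))
  (p p' : Fin n → Fin n), (∀ x y, K.Adj x y → x ∈ C ∧ y ∈ C) → C.Nonempty → IsRF C p →
  IsRF C p' → GG K p ∈ P n → GG K p' ∈ P n

/-- the core of a member is a member -/
def StCore : Prop := ∀ P, LeafClosed P → ∀ (n : ℕ) (K : SimpleGraph (Fin n)) (C : Finset (Fin n))
  (p : Fin n → Fin n), IsCore K C → IsRF C p → GG K p ∈ P n →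
  ∀ e : Fin C.card ≃ {x // x ∈ C}, K.comap (fun i => (e i : Fin n)) ∈ P C.card

/-- few members have a small core -/
def StSmallCore : Prop := ∀ P, LeafClosed P → ∀ γ : ℝ, Real.exp 1 < γ → Growth P γ →
  ∃ α : ℝ, 0 < α ∧ ∃ n₀ : ℕ, ∀ n : ℕ, n₀ ≤ n →
    (({G | G ∈ P n ∧ ∃ C, Rep G C ∧ (C.card : ℝ) < α * n} : Set (SimpleGraph (Fin n))).ncard : ℝ) ≤
      (1 / (n : ℝ)) * ((P n).ncard : ℝ)

/-- The theorem on classes -/
def StClass : Prop := ∀ P, LeafClosed P → ∀ γ : ℝ, Real.exp 1 < γ → Growth P γ →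
  ∃ c : ℝ, 0 < c ∧ ∃ n₀ : ℕ, ∀ n : ℕ, n₀ ≤ n →
    (({G | G ∈ P n ∧ G.Connected ∧ ¬ TwoCards G} : Set (SimpleGraph (Fin n))).ncard : ℝ) ≤
      (n : ℝ) ^ (-c) * ((P n).ncard : ℝ)

end

end Pool.Agent.N375.RF
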