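import Pool.Agent.N375.RF.Lat
import Pool.Agent.N375.RF.MainD
import Pool.Agent.N375.RF.FewL
import Pool.Agent.N375.RF.RepR
import Pool.Agent.N475.RFCayley
import Pool.Agent.N475.RFTwo
import Pool.Agent.N99.RF.Uniq
import Pool.Agent.N99.RF.Inv
import Pool.Agent.N99.RF.Core
import Pool.Agent.N99.RF.Ten
import Pool.Agent.N833.RF.LeafStep
import Pool.Agent.N26.RFDet
import Pool.Agent.N26.RFLem4
import Pool.Agent.N891.RFSmallCore
import Pool.Agent.N897.RFAB
import Pool.Agent.N124.RFLem0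
import Pool.Agent.N340.RFDetRF

set_option autoImplicit false
set_option linter.dupNamespace false

/-!
# Project RF: everything together
-/

namespace Pool.Agent.N375.RF

theorem cayleyStm : StCayley := Pool.Agent.N475.RFCayley.cayley

theorem mainStm : StMain :=
  main Pool.Agent.N897.RF.lemA Pool.Agent.N897.RF.lemB Pool.Agent.N124.RF0.lem0
    Pool.Agent.N475.RFTwo.lem2 (Pool.Agent.N26.RF.lem4 cayleyStm) (Pool.Agent.N99.RF.lem10 cayleyStm)

theorem detStm : StDet := Pool.Agent.N26.RF.det Pool.Agent.N340.RFDetRF.detRF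

theorem uniqStm : StUniq := Pool.Agent.N99.RF.uniq

open Pool.Agent.H234RC (Reconstructible) in
theorem fixed : ∀ α : ℝ, 0 < α → ∃ c : ℝ, 0 < c ∧ ∃ n₀ : ℕ,
    ∀ (V : Type) [Fintype V] (K : SimpleGraph V) (C : Finset V), n₀ ≤ Fintype.card V →
      IsCore K C →
      α * (Fintype.card V : ℝ) ≤ (C.card : ℝ) →
      α * (Fintype.card V : ℝ) ≤ (Fintype.card V : ℝ) - (C.card : ℝ) →
      (({G : SimpleGraph V | (∃ p, IsRF C p ∧ G = GG K p) ∧
        ¬ (Reconstructible G ∧ DetTwo G)}.ncard : ℕ) : ℝ) ≤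
      (Fintype.card V : ℝ) ^ (-c) *
        (({G : SimpleGraph V | ∃ p, IsRF C p ∧ G = GG K p}.ncard : ℕ) : ℝ) :=
  fixedCore mainStm detStm uniqStm

theorem smallStm : StSmallCore := Pool.Agent.N891.RFSmallCore.smallCore Pool.Agent.N99.RF.core

theorem classStm : StClass :=
  classThm mainStm detStm RepR.rep uniqStm Pool.Agent.N99.RF.inv
    (FewL.fewLeaves Pool.Agent.N833.RF.leafStep) smallStm

end Pool.Agent.N375.RF
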