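import Pool.Agent.N375.RF.Stm

set_option autoImplicit false
set_option linter.dupNamespace false
set_option linter.unusedSectionVars false

/-!
# Project RF: basic facts on rooted forests
-/

namespace Pool.Agent.N375.RF

open Finset Classical

variable {V : Type} [Fintype V]

theorem mem_RF {C : Finset V} {p : V → V} : p ∈ RF C ↔ IsRF C p := by simp [RF]

theorem mem_L {p : V → V} {v x : V} : x ∈ L p v ↔ ∃ k : ℕ, p^[k] x = v := by simp [L]

theorem mem_leaves {C : Finset V} {p : V → V} {z : V} : z ∈ leaves C p ↔ Leaf C p z := by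
  simp [leaves]

theorem self_mem_L (p : V → V) (v : V) : v ∈ L p v := mem_L.mpr ⟨0, rfl⟩

theorem iter_fix {p : V → V} {x : V} (h : p x = x) (k : ℕ) : p^[k] x = x :=
  Function.iterate_fixed h k

theorem IsRF.fix {C : Finset V} {p : V → V} (h : IsRF C p) {x : V} (hx : x ∈ C) : p x = x :=
  h.1 x hx

theorem IsRF.ne {C : Finset V} {p : V → V} (h : IsRF C p) {x : V} (hx : x ∉ C) : p x ≠ x := by
  intro he
  obtain ⟨k, hk⟩ := h.2 x
  rw [iter_fix he] at hk
  exact hx hk

/-- a vertex outside `C` is not the parent of its parent -/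
theorem IsRF.ne2 {C : Finset V} {p : V → V} (h : IsRF C p) {x : V} (hx : x ∉ C) :
    p (p x) ≠ x := by
  intro he
  by_cases hpx : p x ∈ C
  · rw [h.fix hpx] at he
    exact hx (he ▸ hpx)
  obtain ⟨k, hk⟩ := h.2 x
  have h2 : ∀ j : ℕ, p^[j] x = x ∨ p^[j] x = p x := by
    intro j
    induction j with
    | zero => exact Or.inl rfl
    | succ j ih =>
      rw [Function.iterate_succ_apply']
      rcases ih with ih | ih
      · right; rw [ih]
      · left; rw [ih, he]
  rcases h2 k with h3 | h3
  · exact hx (h3 ▸ hk)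
  · exact hpx (h3 ▸ hk)

/-- every vertex is in the tree of some root -/
theorem IsRF.exists_root {C : Finset V} {p : V → V} (h : IsRF C p) (x : V) :
    ∃ v ∈ C, x ∈ L p v := by
  obtain ⟨k, hk⟩ := h.2 x
  exact ⟨_, hk, mem_L.mpr ⟨k, rfl⟩⟩

theorem IsRF.root_unique {C : Finset V} {p : V → V} (h : IsRF C p) {x v v' : V} (hv : v ∈ C)
    (hv' : v' ∈ C) (hx : x ∈ L p v) (hx' : x ∈ L p v') : v = v' := by
  obtain ⟨k, hk⟩ := mem_L.mp hx
  obtain ⟨k', hk'⟩ := mem_L.mp hx'
  rcases le_total k k' with hle | hle
  · obtain ⟨j, rfl⟩ := Nat.exists_eq_add_of_le hle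
    rw [Nat.add_comm, Function.iterate_add_apply, hk, iter_fix (h.fix hv)] at hk'
    exact hk'
  · obtain ⟨j, rfl⟩ := Nat.exists_eq_add_of_le hle
    rw [Nat.add_comm, Function.iterate_add_apply, hk', iter_fix (h.fix hv')] at hk
    exact hk.symm

theorem IsRF.disjoint_L {C : Finset V} {p : V → V} (h : IsRF C p) {v v' : V} (hv : v ∈ C)
    (hv' : v' ∈ C) (hne : v ≠ v') : Disjoint (L p v) (L p v') := by
  rw [Finset.disjoint_left]
  intro x hx hx'
  exact hne (h.root_unique hv hv' hx hx')

/-- a root is only in its own tree -/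
theorem IsRF.root_mem {C : Finset V} {p : V → V} (h : IsRF C p) {v x : V}
    (hx : x ∈ C) (hxv : x ∈ L p v) : x = v := by
  obtain ⟨k, hk⟩ := mem_L.mp hxv
  rw [iter_fix (h.fix hx)] at hk
  exact hk

theorem IsRF.p_mem {C : Finset V} {p : V → V} (h : IsRF C p) {v x : V} (hv : v ∈ C) :
    p x ∈ L p v ↔ x ∈ L p v := by
  rw [mem_L, mem_L]
  constructor
  · rintro ⟨k, hk⟩
    exact ⟨k + 1, by rw [Function.iterate_succ_apply]; exact hk⟩
  · rintro ⟨k, hk⟩
    refine ⟨k, ?_⟩
    rw [← Function.iterate_succ_apply, Function.iterate_succ_apply', hk, h.fix hv]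

theorem IsRF.sum_card {C : Finset V} {p : V → V} (h : IsRF C p) :
    ∑ v ∈ C, (L p v).card = Fintype.card V := by
  rw [← Finset.card_biUnion (fun x hx y hy hne => h.disjoint_L hx hy hne), ← Finset.card_univ]
  congr 1
  ext x
  simp only [mem_biUnion, mem_univ, iff_true]
  exact h.exists_root x

/-- the number of trees with more than `s` vertices times `s + 1` is at most `|V|` -/
theorem IsRF.card_large {C : Finset V} {p : V → V} (h : IsRF C p) (s : ℕ) :
    (C.filter (fun v => s < (L p v).card)).card * (s + 1) ≤ Fintype.card V := by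
  rw [← h.sum_card]
  calc (C.filter (fun v => s < (L p v).card)).card * (s + 1)
      = ∑ _v ∈ C.filter (fun v => s < (L p v).card), (s + 1) := by rw [sum_const, smul_eq_mul]
    _ ≤ ∑ v ∈ C.filter (fun v => s < (L p v).card), (L p v).card :=
        sum_le_sum (fun v hv => (mem_filter.mp hv).2)
    _ ≤ ∑ v ∈ C, (L p v).card := sum_le_sum_of_subset (filter_subset _ _)

theorem IsRF.N_mul_le {C : Finset V} {p : V → V} (h : IsRF C p) (s : ℕ) :
    N C p s * s ≤ Fintype.card V := by
  rw [← h.sum_card]
  calc N C p s * s = ∑ _v ∈ C.filter (fun v => (L p v).card = s), s := by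
        rw [sum_const, smul_eq_mul]; rfl
    _ = ∑ v ∈ C.filter (fun v => (L p v).card = s), (L p v).card :=
        sum_congr rfl (fun v hv => (mem_filter.mp hv).2.symm)
    _ ≤ ∑ v ∈ C, (L p v).card := sum_le_sum_of_subset (filter_subset _ _)

/-! ### Leaf moves -/

/-- iterates of a leaf move -/
theorem iter_update {C : Finset V} {p : V → V} {z w : V} (hz : Leaf C p z) (_hw : w ≠ z)
    (k : ℕ) {x : V} (hx : x ≠ z) : (Function.update p z w)^[k] x = p^[k] x ∧ p^[k] x ≠ z := by
  induction k with
  | zero => exact ⟨rfl, hx⟩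
  | succ k ih =>
    rw [Function.iterate_succ_apply', Function.iterate_succ_apply', ih.1,
      Function.update_of_ne ih.2]
    exact ⟨rfl, hz.2 _⟩

theorem leaf_move {C : Finset V} {p : V → V} (h : IsRF C p) {z w : V} (hz : Leaf C p z)
    (hw : w ≠ z) : IsRF C (Function.update p z w) := by
  constructor
  · intro x hx
    have hxz : x ≠ z := by
      rintro rfl
      exact hz.1 hx
    rw [Function.update_of_ne hxz, h.fix hx]
  · intro x
    by_cases hx : x = z
    · obtain ⟨k, hk⟩ := h.2 w
      refine ⟨k + 1, ?_⟩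
      rw [Function.iterate_succ_apply, hx, Function.update_self, (iter_update hz hw k hw).1]
      exact hk
    · obtain ⟨k, hk⟩ := h.2 x
      exact ⟨k, by rw [(iter_update hz hw k hx).1]; exact hk⟩

/-- `z` is still a leaf after the move -/
theorem leaf_move_leaf {C : Finset V} {p : V → V} {z w : V} (hz : Leaf C p z)
    (hw : w ≠ z) : Leaf C (Function.update p z w) z := by
  refine ⟨hz.1, fun x => ?_⟩
  by_cases hx : x = z
  · rw [hx, Function.update_self]; exact hw
  · rw [Function.update_of_ne hx]; exact hz.2 x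

/-- the trees after a leaf move -/
theorem mem_L_move {C : Finset V} {p : V → V} {z w : V} (hz : Leaf C p z)
    (hw : w ≠ z) {v : V} (hv : v ∈ C) (x : V) :
    x ∈ L (Function.update p z w) v ↔ (x ≠ z ∧ x ∈ L p v) ∨ (x = z ∧ w ∈ L p v) := by
  have hvz : v ≠ z := by
    intro he
    exact hz.1 (he ▸ hv)
  by_cases hx : x = z
  · subst hx
    simp only [ne_eq, not_true_eq_false, false_and, true_and, false_or]
    rw [mem_L, mem_L]
    constructor
    · rintro ⟨k, hk⟩
      rcases k with _ | k
      · exact absurd hk.symm hvz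
      · refine ⟨k, ?_⟩
        rw [Function.iterate_succ_apply, Function.update_self, (iter_update hz hw k hw).1] at hk
        exact hk
    · rintro ⟨k, hk⟩
      refine ⟨k + 1, ?_⟩
      rw [Function.iterate_succ_apply, Function.update_self, (iter_update hz hw k hw).1]
      exact hk
  · simp only [ne_eq, hx, not_false_eq_true, true_and, false_and, or_false]
    rw [mem_L, mem_L]
    constructor
    · rintro ⟨k, hk⟩
      exact ⟨k, by rw [← (iter_update hz hw k hx).1]; exact hk⟩
    · rintro ⟨k, hk⟩
      exact ⟨k, by rw [(iter_update hz hw k hx).1]; exact hk⟩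

theorem L_move_of_mem {C : Finset V} {p : V → V} {z w : V} (hz : Leaf C p z)
    (hw : w ≠ z) {v : V} (hv : v ∈ C) (hwv : w ∈ L p v) :
    L (Function.update p z w) v = insert z (L p v) := by
  ext x
  rw [mem_L_move hz hw hv, mem_insert]
  by_cases hx : x = z
  · simp [hx, hwv]
  · simp [hx]

theorem L_move_of_notMem {C : Finset V} {p : V → V} {z w : V} (hz : Leaf C p z)
    (hw : w ≠ z) {v : V} (hv : v ∈ C) (hwv : w ∉ L p v) :
    L (Function.update p z w) v = (L p v).erase z := by
  ext x
  rw [mem_L_move hz hw hv, mem_erase]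
  by_cases hx : x = z
  · simp [hx, hwv]
  · simp [hx]

/-- a tree containing neither the moved leaf nor its new parent does not change -/
theorem L_move_same {C : Finset V} {p : V → V} {z w : V} (hz : Leaf C p z)
    (hw : w ≠ z) {v : V} (hv : v ∈ C) (hwv : w ∉ L p v) (hzv : z ∉ L p v) :
    L (Function.update p z w) v = L p v := by
  rw [L_move_of_notMem hz hw hv hwv, erase_eq_of_notMem hzv]

/-- the move can be undone -/
theorem update_update_self (p : V → V) (z w : V) :
    Function.update (Function.update p z w) z (p z) = p := by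
  rw [Function.update_idem, Function.update_eq_self]

/-! ### Leaves -/

/-- a tree with at least two vertices has a leaf -/
theorem IsRF.exists_leaf {C : Finset V} {p : V → V} (h : IsRF C p) {v : V} (hv : v ∈ C)
    (h2 : 2 ≤ (L p v).card) : ∃ u ∈ L p v, Leaf C p u := by
  obtain ⟨x, hx, hxv⟩ : ∃ x ∈ L p v, x ≠ v := by
    obtain ⟨x, hx, y, hy, hxy⟩ := Finset.one_lt_card.mp h2
    by_cases h3 : x = v
    · exact ⟨y, hy, fun h4 => hxy (h3.trans h4.symm)⟩
    · exact ⟨x, hx, h3⟩
  let d : V → ℕ := fun x => Nat.find (h.2 x)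
  have hd : ∀ x y, p y = x → y ∉ C → d y = d x + 1 := by
    intro x y hyx hy
    apply le_antisymm
    · apply Nat.find_min'
      rw [Function.iterate_succ_apply, hyx]
      exact Nat.find_spec (h.2 x)
    · have h1 : d y ≠ 0 := by
        intro h0
        have := Nat.find_spec (h.2 y)
        rw [show Nat.find (h.2 y) = 0 from h0] at this
        exact hy this
      obtain ⟨j, hj⟩ : ∃ j, d y = j + 1 := ⟨d y - 1, by omega⟩
      rw [hj]
      apply Nat.succ_le_succ
      apply Nat.find_min'
      have := Nat.find_spec (h.2 y)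
      rw [show Nat.find (h.2 y) = j + 1 from hj, Function.iterate_succ_apply, hyx] at this
      exact this
  obtain ⟨u, hu, hmax⟩ := Finset.exists_max_image ((L p v).erase v) d
    ⟨x, mem_erase.mpr ⟨hxv, hx⟩⟩
  have huC : u ∉ C := fun hC => (mem_erase.mp hu).1 (h.root_mem hC (mem_erase.mp hu).2)
  refine ⟨u, (mem_erase.mp hu).2, huC, fun y hy => ?_⟩
  by_cases hyC : y ∈ C
  · rw [h.fix hyC] at hy
    exact huC (hy ▸ hyC)
  · have h1 := hd u y hy hyC
    have h3 : y ∈ L p v := by
      rw [← h.p_mem hv, hy]; exact (mem_erase.mp hu).2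
    have h4 : y ≠ v := fun he => hyC (he ▸ hv)
    have := hmax y (mem_erase.mpr ⟨h4, h3⟩)
    omega

/-- the leaves in a tree are at most its vertices minus one -/
theorem IsRF.leaves_inter {C : Finset V} {p : V → V} {v : V} (hv : v ∈ C) :
    ((leaves C p).filter (fun z => z ∈ L p v)).card + 1 ≤ (L p v).card := by
  have h1 : insert v ((leaves C p).filter (fun z => z ∈ L p v)) ⊆ L p v := by
    intro x hx
    rcases mem_insert.mp hx with rfl | hx
    · exact self_mem_L p x
    · exact (mem_filter.mp hx).2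
  have h2 : v ∉ (leaves C p).filter (fun z => z ∈ L p v) := by
    intro hx
    exact (mem_leaves.mp (mem_filter.mp hx).1).1 hv
  calc _ = (insert v ((leaves C p).filter (fun z => z ∈ L p v))).card :=
        (card_insert_of_notMem h2).symm
    _ ≤ _ := card_le_card h1

/-- a leaf is in a tree with at least two vertices -/
theorem IsRF.two_le_of_leaf {C : Finset V} {p : V → V} {v z : V} (hv : v ∈ C)
    (hz : Leaf C p z) (hzv : z ∈ L p v) : 2 ≤ (L p v).card := by
  have h1 : ({v, z} : Finset V) ⊆ L p v := by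
    intro x hx
    rcases mem_insert.mp hx with rfl | hx
    · exact self_mem_L p x
    · rw [mem_singleton.mp hx]; exact hzv
  have h2 : v ≠ z := fun he => hz.1 (he ▸ hv)
  calc 2 = ({v, z} : Finset V).card := (card_pair h2).symm
    _ ≤ _ := card_le_card h1

/-- double counting with a relation -/
theorem double_count {α β : Type} (A : Finset α) (B : Finset β) (r : α → β → Prop) (m n : ℕ)
    (h1 : ∀ a ∈ A, m ≤ (B.filter (fun b => r a b)).card)
    (h2 : ∀ b ∈ B, (A.filter (fun a => r a b)).card ≤ n) : A.card * m ≤ B.card * n :=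
  Finset.card_mul_le_card_mul r (fun a ha => h1 a ha) (fun b hb => h2 b hb)

end Pool.Agent.N375.RF
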