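import Pool.Agent.N375.RF.Basic

set_option autoImplicit false
set_option linter.dupNamespace false
set_option linter.unusedSectionVars false

/-!
# Project RF: the theorem on classes from its parts
-/

namespace Pool.Agent.N375.RF

open Finset Classical

/-- end vertices are outside the core -/
theorem endv_subset {V : Type} [Fintype V] {K : SimpleGraph V} {C : Finset V} {p : V → V}
    (hK : IsCore K C) : endv (GG K p) ⊆ Cᶜ := by
  intro x hx
  rw [mem_compl]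
  intro hxC
  obtain ⟨y, z, hyz, h1, h2⟩ := hK.2 x hxC
  obtain ⟨w, _, hw⟩ := (mem_filter.mp hx).2
  exact hyz ((hw y (Or.inl h1)).trans (hw z (Or.inl h2)).symm)

/-- the number of elements of a complement does not depend on the decidability instance -/
theorem compl_inst {V : Type} [Fintype V] (i j : DecidableEq V) (C : Finset V) :
    (@compl (Finset V) (@BooleanAlgebra.toCompl _ (@Finset.booleanAlgebra V _ i)) C).card =
      (@compl (Finset V) (@BooleanAlgebra.toCompl _ (@Finset.booleanAlgebra V _ j)) C).card := by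
  cases Subsingleton.elim i j
  rfl

/-- counting through the fibres -/
theorem fibre_sum (hU : StUniq) (hDet : StDet) (hInv : StInv)
    (P : (n : ℕ) → Set (SimpleGraph (Fin n))) (hP : LeafClosed P) (n : ℕ) (ε a : ℝ)
    (ha : 0 < a) (hε : 0 ≤ ε)
    (hmain : ∀ C : Finset (Fin n), a ≤ (C.card : ℝ) → a ≤ (Cᶜ.card : ℝ) →
      (((RF C).filter (fun p => ¬ Good C p)).card : ℝ) ≤ ε * ((RF C).card : ℝ)) :
    (({G | G ∈ P n ∧ ∃ (C : Finset (Fin n)) (K : SimpleGraph (Fin n)) (p : Fin n → Fin n),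
        IsCore K C ∧ IsRF C p ∧ G = GG K p ∧ a ≤ (C.card : ℝ) ∧ a ≤ (Cᶜ.card : ℝ) ∧
        ¬ TwoCards G} : Set (SimpleGraph (Fin n))).ncard : ℝ) ≤ ε * ((P n).ncard : ℝ) := by
  -- the keys
  let I : Finset (Finset (Fin n) × SimpleGraph (Fin n)) := univ.filter (fun k =>
    IsCore k.2 k.1 ∧ a ≤ (k.1.card : ℝ) ∧ a ≤ (k.1ᶜ.card : ℝ) ∧
      ∃ p, IsRF k.1 p ∧ GG k.2 p ∈ P n)
  let F : Finset (Fin n) × SimpleGraph (Fin n) → Finset (SimpleGraph (Fin n)) :=
    fun k => (RF k.1).image (fun p => GG k.2 p)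
  let B : Finset (Fin n) × SimpleGraph (Fin n) → Finset (SimpleGraph (Fin n)) :=
    fun k => ((RF k.1).filter (fun p => ¬ Good k.1 p)).image (fun p => GG k.2 p)
  have hne : ∀ k ∈ I, k.1.Nonempty := by
    intro k hk
    have h1 := (mem_filter.mp hk).2.2.1
    rw [← Finset.card_pos]
    have : (0 : ℝ) < (k.1.card : ℝ) := lt_of_lt_of_le ha h1
    exact_mod_cast this
  have hFcard : ∀ k ∈ I, (F k).card = (RF k.1).card := by
    intro k hk
    apply Finset.card_image_of_injOn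
    intro p hp q hq hpq
    have hc := (mem_filter.mp hk).2.1
    exact (hU _ _ _ _ _ _ _ hc (mem_RF.mp hp) hc (mem_RF.mp hq) hpq).2.2
  have hFdis : ∀ k ∈ I, ∀ k' ∈ I, k ≠ k' → Disjoint (F k) (F k') := by
    intro k hk k' hk' hkk
    rw [Finset.disjoint_left]
    intro G hG hG'
    obtain ⟨p, hp, hpG⟩ := mem_image.mp hG
    obtain ⟨q, hq, hqG⟩ := mem_image.mp hG'
    have h1 := hU _ _ _ _ _ _ _ (mem_filter.mp hk).2.1 (mem_RF.mp hp)
      (mem_filter.mp hk').2.1 (mem_RF.mp hq) (hpG.trans hqG.symm)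
    exact hkk (Prod.ext h1.1 h1.2.1)
  have hFP : ∀ k ∈ I, ∀ G ∈ F k, G ∈ P n := by
    intro k hk G hG
    obtain ⟨q, hq, hqG⟩ := mem_image.mp hG
    obtain ⟨hc, _, _, p, hp, hpP⟩ := (mem_filter.mp hk).2
    rw [← hqG]
    exact hInv P hP n k.2 k.1 p q hc.1 (hne k hk) hp (mem_RF.mp hq) hpP
  have hsub : ({G | G ∈ P n ∧ ∃ (C : Finset (Fin n)) (K : SimpleGraph (Fin n))
      (p : Fin n → Fin n), IsCore K C ∧ IsRF C p ∧ G = GG K p ∧ a ≤ (C.card : ℝ) ∧
        a ≤ (Cᶜ.card : ℝ) ∧ ¬ TwoCards G} : Set (SimpleGraph (Fin n))) ⊆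
      ((I.biUnion B : Finset (SimpleGraph (Fin n))) : Set (SimpleGraph (Fin n))) := by
    rintro G ⟨hG, C, K, p, hK, hp, rfl, h1, h2, h3⟩
    rw [mem_coe, mem_biUnion]
    refine ⟨(C, K), mem_filter.mpr ⟨mem_univ _, hK, h1, h2, p, hp, hG⟩, ?_⟩
    refine mem_image.mpr ⟨p, mem_filter.mpr ⟨mem_RF.mpr hp, ?_⟩, rfl⟩
    rintro ⟨u, z, huz⟩
    exact h3 ⟨u, z, hDet _ K C p u z hK hp huz⟩
  have hcount : ((P n).ncard : ℝ) ≥ ∑ k ∈ I, ((RF k.1).card : ℝ) := by
    have h1 : (I.biUnion F).card = ∑ k ∈ I, (RF k.1).card := by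
      rw [Finset.card_biUnion (fun x hx y hy hne => hFdis x hx y hy hne)]
      exact Finset.sum_congr rfl hFcard
    have h2 : ((I.biUnion F : Finset (SimpleGraph (Fin n))) : Set (SimpleGraph (Fin n))) ⊆ P n := by
      intro G hG
      rw [mem_coe, mem_biUnion] at hG
      obtain ⟨k, hk, hG⟩ := hG
      exact hFP k hk G hG
    have h3 := Set.ncard_le_ncard h2 (Set.toFinite _)
    rw [Set.ncard_coe_finset, h1] at h3
    exact_mod_cast h3
  have hB : ((I.biUnion B).card : ℝ) ≤ ∑ k ∈ I, ε * ((RF k.1).card : ℝ) := by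
    calc ((I.biUnion B).card : ℝ) ≤ ((∑ k ∈ I, (B k).card : ℕ) : ℝ) := by
          exact_mod_cast Finset.card_biUnion_le
      _ = ∑ k ∈ I, ((B k).card : ℝ) := by push_cast; rfl
      _ ≤ ∑ k ∈ I, ε * ((RF k.1).card : ℝ) := by
          apply Finset.sum_le_sum
          intro k hk
          have h1 := (mem_filter.mp hk).2
          refine le_trans ?_ (hmain k.1 h1.2.1 h1.2.2.1)
          exact_mod_cast Finset.card_image_le
  have h4 := Set.ncard_le_ncard hsub (Set.toFinite _)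
  rw [Set.ncard_coe_finset] at h4
  calc _ ≤ ((I.biUnion B).card : ℝ) := by exact_mod_cast h4
    _ ≤ ∑ k ∈ I, ε * ((RF k.1).card : ℝ) := hB
    _ = ε * ∑ k ∈ I, ((RF k.1).card : ℝ) := by rw [Finset.mul_sum]
    _ ≤ ε * ((P n).ncard : ℝ) := mul_le_mul_of_nonneg_left hcount hε

/-- the theorem on classes -/
theorem classThm (hMain : StMain) (hDet : StDet) (hRep : StRep) (hU : StUniq) (hInv : StInv)
    (hFew : StFewLeaves) (hSmall : StSmallCore) : StClass := by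
  intro P hP γ hγ hG
  have hγ0 : 0 < γ := lt_trans (Real.exp_pos 1) hγ
  obtain ⟨α₁, hα₁, n₁, h₁⟩ := hFew P hP γ hγ0 hG
  obtain ⟨α₂, hα₂, n₂, h₂⟩ := hSmall P hP γ hγ hG
  obtain ⟨c, hc, n₃, h₃⟩ := hMain (min α₁ α₂) (lt_min hα₁ hα₂)
  set c' := min c 1 with hc'
  have hc'0 : 0 < c' := lt_min hc one_pos
  -- large n
  obtain ⟨n₄, hn₄⟩ : ∃ n₄ : ℕ, ∀ n : ℕ, n₄ ≤ n → 1 < α₂ * n := by
    obtain ⟨k, hk⟩ := exists_nat_gt (1 / α₂)
    refine ⟨k, fun n hn => ?_⟩
    have h5 : (k : ℝ) ≤ n := by exact_mod_cast hn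
    have h6 : 1 / α₂ < n := lt_of_lt_of_le hk h5
    rw [div_lt_iff₀ hα₂] at h6
    linarith
  have hev : ∀ᶠ n : ℕ in Filter.atTop, (3 : ℝ) ≤ (n : ℝ) ^ (c' / 2) := by
    have h5 : Filter.Tendsto (fun n : ℕ => (n : ℝ) ^ (c' / 2)) Filter.atTop Filter.atTop :=
      (tendsto_rpow_atTop (by positivity)).comp tendsto_natCast_atTop_atTop
    exact h5.eventually_ge_atTop 3
  obtain ⟨n₅, hn₅⟩ := Filter.eventually_atTop.mp hev
  refine ⟨c' / 2, by positivity, max (max (max n₁ n₂) (max n₃ n₄)) (max n₅ 1), ?_⟩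
  intro n hn
  have hn1 : n₁ ≤ n := le_trans (le_trans (le_max_left _ _) (le_trans (le_max_left _ _)
    (le_max_left _ _))) hn
  have hn2 : n₂ ≤ n := le_trans (le_trans (le_max_right _ _) (le_trans (le_max_left _ _)
    (le_max_left _ _))) hn
  have hn3 : n₃ ≤ n := le_trans (le_trans (le_max_left _ _) (le_trans (le_max_right _ _)
    (le_max_left _ _))) hn
  have hn4 : n₄ ≤ n := le_trans (le_trans (le_max_right _ _) (le_trans (le_max_right _ _)
    (le_max_left _ _))) hn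
  have hn5 : n₅ ≤ n := le_trans (le_trans (le_max_left _ _) (le_max_right _ _)) hn
  have hn6 : 1 ≤ n := le_trans (le_trans (le_max_right _ _) (le_max_right _ _)) hn
  have hnpos : (1 : ℝ) ≤ (n : ℝ) := by exact_mod_cast hn6
  have hn0 : (0 : ℝ) < (n : ℝ) := by linarith
  set α := min α₁ α₂ with hα
  have hα0 : 0 < α := lt_min hα₁ hα₂
  have hfib := fibre_sum hU hDet hInv P hP n ((n : ℝ) ^ (-c)) (α * n) (by positivity)
    (by positivity) (fun C hC1 hC2 => by
      have := h₃ (Fin n) C (by rw [Fintype.card_fin]; exact hn3)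
        (by rw [Fintype.card_fin]; exact hC1)
        (by rw [Fintype.card_fin]; exact (compl_inst _ _ C).subst (motive := fun k : ℕ => α * (n : ℝ) ≤ (k : ℝ)) hC2)
      rw [Fintype.card_fin] at this
      exact this)
  have hA := h₁ n hn1
  have hB := h₂ n hn2
  set S1 : Set (SimpleGraph (Fin n)) := {G | G ∈ P n ∧ ((endv G).card : ℝ) < α₁ * n}
  set S2 : Set (SimpleGraph (Fin n)) := {G | G ∈ P n ∧ ∃ C, Rep G C ∧ (C.card : ℝ) < α₂ * n}
  set S3 : Set (SimpleGraph (Fin n)) := {G | G ∈ P n ∧ ∃ (C : Finset (Fin n))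
    (K : SimpleGraph (Fin n)) (p : Fin n → Fin n), IsCore K C ∧ IsRF C p ∧ G = GG K p ∧
      α * n ≤ (C.card : ℝ) ∧ α * n ≤ (Cᶜ.card : ℝ) ∧ ¬ TwoCards G}
  have hsub : {G | G ∈ P n ∧ G.Connected ∧ ¬ TwoCards G} ⊆ S1 ∪ S2 ∪ S3 := by
    rintro G ⟨hGP, hGc, hG2⟩
    by_cases hs1 : G ∈ S1
    · exact Or.inl (Or.inl hs1)
    by_cases hs2 : G ∈ S2
    · exact Or.inl (Or.inr hs2)
    right
    obtain ⟨C, K, p, hp, hGK, hor⟩ := hRep (Fin n) G hGc
    have hrep : Rep G C := ⟨K, p, hp, hGK, hor⟩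
    have hC : α₂ * n ≤ (C.card : ℝ) := by
      by_contra hcon
      exact hs2 ⟨hGP, C, hrep, lt_of_not_ge hcon⟩
    rcases hor with ⟨hK, hne⟩ | ⟨v, hv, _⟩
    · refine ⟨hGP, C, K, p, hK, hp, hGK, ?_, ?_, hG2⟩
      · refine le_trans ?_ hC
        exact mul_le_mul_of_nonneg_right (min_le_right _ _) hn0.le
      · have h6 : α₁ * n ≤ ((endv G).card : ℝ) := by
          by_contra hcon
          exact hs1 ⟨hGP, lt_of_not_ge hcon⟩
        have h7 : ((endv G).card : ℝ) ≤ (Cᶜ.card : ℝ) := by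
          rw [hGK]
          have h8 : (endv (GG K p)).card ≤ Cᶜ.card := by
            have h9 := card_le_card (endv_subset (p := p) hK)
            exact h9.trans (le_of_eq (compl_inst _ _ C))
          exact_mod_cast h8
        refine le_trans ?_ (le_trans h6 h7)
        exact mul_le_mul_of_nonneg_right (min_le_left _ _) hn0.le
    · exfalso
      have h6 := hn₄ n hn4
      rw [hv, card_singleton] at hC
      push_cast at hC
      linarith
  have h6 : (({G | G ∈ P n ∧ G.Connected ∧ ¬ TwoCards G} : Set (SimpleGraph (Fin n))).ncard : ℝ) ≤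
      (S1.ncard : ℝ) + (S2.ncard : ℝ) + (S3.ncard : ℝ) := by
    have h7 := Set.ncard_le_ncard hsub (Set.toFinite _)
    have h8 := Set.ncard_union_le (S1 ∪ S2) S3
    have h9 := Set.ncard_union_le S1 S2
    exact_mod_cast le_trans h7 (le_trans h8 (by omega))
  have hPn : (0 : ℝ) ≤ ((P n).ncard : ℝ) := by positivity
  have e1 : 1 / (n : ℝ) ≤ (n : ℝ) ^ (-c') := by
    rw [one_div, ← Real.rpow_neg_one]
    apply Real.rpow_le_rpow_of_exponent_le hnpos
    have := min_le_right c 1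
    linarith
  have e2 : (n : ℝ) ^ (-c) ≤ (n : ℝ) ^ (-c') := by
    apply Real.rpow_le_rpow_of_exponent_le hnpos
    have := min_le_left c 1
    linarith
  have e3 : 3 * (n : ℝ) ^ (-c') ≤ (n : ℝ) ^ (-(c' / 2)) := by
    have h7 := hn₅ n hn5
    have h8 : (n : ℝ) ^ (-(c' / 2)) = (n : ℝ) ^ (c' / 2) * (n : ℝ) ^ (-c') := by
      rw [← Real.rpow_add hn0]
      congr 1
      ring
    rw [h8]
    exact mul_le_mul_of_nonneg_right h7 (by positivity)
  calc _ ≤ (S1.ncard : ℝ) + (S2.ncard : ℝ) + (S3.ncard : ℝ) := h6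
    _ ≤ (1 / (n : ℝ)) * ((P n).ncard : ℝ) + (1 / (n : ℝ)) * ((P n).ncard : ℝ) +
        (n : ℝ) ^ (-c) * ((P n).ncard : ℝ) := by linarith
    _ ≤ (n : ℝ) ^ (-c') * ((P n).ncard : ℝ) + (n : ℝ) ^ (-c') * ((P n).ncard : ℝ) +
        (n : ℝ) ^ (-c') * ((P n).ncard : ℝ) := by gcongr
    _ = 3 * (n : ℝ) ^ (-c') * ((P n).ncard : ℝ) := by ring
    _ ≤ (n : ℝ) ^ (-(c' / 2)) * ((P n).ncard : ℝ) := mul_le_mul_of_nonneg_right e3 hPn

end Pool.Agent.N375.RF
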