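import Pool.Agent.N375.RF.Cls
import Pool.Agent.TH87.RVP.Fin
import Pool.Agent.H234RC.T1

set_option autoImplicit false
set_option linter.dupNamespace false
set_option linter.unusedSectionVars false

/-!
# Project RF: truncated clique lattices
-/

namespace Pool.Agent.N375.RF

open Finset Classical
open Pool.Agent.H234RC (Hypo NonIso Reconstructible exists_hypo card_iso whole_iso TLat TCard
  SameDeck)

/-- the truncated clique lattice is determined by the number of edges and two cards -/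
def DetTwo {V : Type} (G : SimpleGraph V) : Prop :=
  ∃ a b : V, a ≠ b ∧ ∀ (W : Type) [Fintype W] (H : SimpleGraph W) (a' b' : W), a' ≠ b' →
    H.edgeSet.ncard = G.edgeSet.ncard → Nonempty (TCard G a ≃o TCard H a') →
    Nonempty (TCard G b ≃o TCard H b') → Nonempty (TLat G ≃o TLat H)

theorem detTwo_of {V : Type} [Fintype V] {G : SimpleGraph V} (h : TwoCards G) : DetTwo G := by
  obtain ⟨a, b, hab, h⟩ := h
  refine ⟨a, b, hab, ?_⟩
  intro W _ H a' b' hab' hE h1 h2
  obtain ⟨e, he⟩ := h W H a' b' hab' hE (card_iso G H a a' h1) (card_iso G H b b' h2)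
  exact whole_iso G H e he

/-- hypomorphic graphs have the same number of edges -/
theorem edges_eq {V : Type} [Fintype V] {G H : SimpleGraph V} {π : V → Equiv.Perm V}
    (hH : Hypo G H π) (h3 : 3 ≤ Fintype.card V) : H.edgeSet.ncard = G.edgeSet.ncard := by
  have hd : ∀ v, G.degree v = H.degree v := by
    intro v
    have h1 := Pool.Agent.TH87.RVP.hypo_dg hH h3 v
    unfold Pool.Agent.TH87.RVP.dg at h1
    rw [← SimpleGraph.card_neighborFinset_eq_degree, ← SimpleGraph.card_neighborFinset_eq_degree]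
    have e1 : ∀ K : SimpleGraph V, K.neighborFinset v = univ.filter (fun y => K.Adj v y) := by
      intro K
      ext y
      simp
    rw [e1, e1]
    exact h1
  have e2 : ∀ K : SimpleGraph V, K.edgeSet.ncard = K.edgeFinset.card := by
    intro K
    rw [← SimpleGraph.coe_edgeFinset, Set.ncard_coe_finset]
  have h2 := G.sum_degrees_eq_twice_card_edges
  have h4 := H.sum_degrees_eq_twice_card_edges
  rw [e2, e2]
  have h5 : ∑ v, G.degree v = ∑ v, H.degree v := Finset.sum_congr rfl (fun v _ => hd v)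
  omega

theorem cardIso_of_hypo {V : Type} {G H : SimpleGraph V} {π : V → Equiv.Perm V}
    (hH : Hypo G H π) (a : V) : CardIso G a H a := by
  refine ⟨(π a).subtypeEquiv (fun x => ?_), ?_⟩
  · have h1 := hH.fix a
    constructor
    · intro hx he
      exact hx ((π a).injective (he.trans h1.symm))
    · intro hx he
      exact hx (by rw [he, h1])
  · intro x y
    exact hH.adj a x y x.2 y.2

theorem recon_of_two {V : Type} [Fintype V] {G : SimpleGraph V} (h3 : 3 ≤ Fintype.card V)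
    (h : TwoCards G) : Reconstructible G := by
  by_contra hR
  obtain ⟨H, π, hH, hN⟩ := exists_hypo G hR
  obtain ⟨a, b, hab, h⟩ := h
  obtain ⟨e, he⟩ := h V H a b hab (edges_eq hH h3) (cardIso_of_hypo hH a) (cardIso_of_hypo hH b)
  exact hN ⟨e, he⟩

theorem recon_of_disc {V : Type} [Fintype V] {G : SimpleGraph V} (h3 : 3 ≤ Fintype.card V)
    (h : ¬ G.Connected) : Reconstructible G := by
  by_contra hR
  obtain ⟨H, π, hH, hN⟩ := exists_hypo G hR
  have hne : Nonempty V := Fintype.card_pos_iff.mp (by omega)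
  rw [SimpleGraph.connected_iff] at h
  push Not at h
  have h1 : ¬ G.Preconnected := fun hp => (not_isEmpty_iff.mpr hne) (by
    have := h hp
    simpa using this)
  unfold SimpleGraph.Preconnected at h1
  push Not at h1
  obtain ⟨x, y, hxy⟩ := h1
  apply hN
  refine Pool.Agent.TH87.RVP.disc_iso hH h3 (univ.filter (fun z => G.Reachable x z))
    ⟨x, by simp⟩ ⟨y, by simpa using hxy⟩ ?_
  intro z hz w hw hzw
  apply hw
  rw [mem_filter] at hz ⊢
  exact ⟨mem_univ _, hz.2.trans hzw.reachable⟩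

/-- graphs obtained from `K` by attaching a rooted forest -/
theorem fixedCore (hMain : StMain) (hDet : StDet) (hU : StUniq) :
    ∀ α : ℝ, 0 < α → ∃ c : ℝ, 0 < c ∧ ∃ n₀ : ℕ,
    ∀ (V : Type) [Fintype V] (K : SimpleGraph V) (C : Finset V), n₀ ≤ Fintype.card V →
      IsCore K C →
      α * (Fintype.card V : ℝ) ≤ (C.card : ℝ) →
      α * (Fintype.card V : ℝ) ≤ (Fintype.card V : ℝ) - (C.card : ℝ) →
      (({G : SimpleGraph V | (∃ p, IsRF C p ∧ G = GG K p) ∧
        ¬ (Reconstructible G ∧ DetTwo G)}.ncard : ℕ) : ℝ) ≤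
      (Fintype.card V : ℝ) ^ (-c) *
        (({G : SimpleGraph V | ∃ p, IsRF C p ∧ G = GG K p}.ncard : ℕ) : ℝ) := by
  intro α hα
  obtain ⟨c, hc, n₀, h⟩ := hMain α hα
  refine ⟨c, hc, max n₀ 3, ?_⟩
  intro V _ K C hn hK hC hC'
  have hn0 : n₀ ≤ Fintype.card V := le_trans (le_max_left _ _) hn
  have h3 : 3 ≤ Fintype.card V := le_trans (le_max_right _ _) hn
  have hcompl : (Cᶜ.card : ℝ) = (Fintype.card V : ℝ) - (C.card : ℝ) := by
    have h1 := Finset.card_add_card_compl C
    have h2 : (C.card : ℝ) + (Cᶜ.card : ℝ) = (Fintype.card V : ℝ) := by exact_mod_cast h1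
    linarith
  have h1 := h V C hn0 hC (by rw [hcompl]; exact hC')
  have e1 : {G : SimpleGraph V | ∃ p, IsRF C p ∧ G = GG K p} =
      (((RF C).image (fun p => GG K p) : Finset (SimpleGraph V)) : Set (SimpleGraph V)) := by
    ext G
    rw [mem_coe, mem_image, Set.mem_ofPred_eq]
    constructor
    · rintro ⟨p, hp, rfl⟩
      exact ⟨p, mem_RF.mpr hp, rfl⟩
    · rintro ⟨p, hp, rfl⟩
      exact ⟨p, mem_RF.mp hp, rfl⟩
  have e2 : ((RF C).image (fun p => GG K p)).card = (RF C).card := by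
    apply Finset.card_image_of_injOn
    intro p hp q hq hpq
    exact (hU _ _ _ _ _ _ _ hK (mem_RF.mp hp) hK (mem_RF.mp hq) hpq).2.2
  have e3 : {G : SimpleGraph V | (∃ p, IsRF C p ∧ G = GG K p) ∧
        ¬ (Reconstructible G ∧ DetTwo G)} ⊆
      ((((RF C).filter (fun p => ¬ Good C p)).image (fun p => GG K p) :
        Finset (SimpleGraph V)) : Set (SimpleGraph V)) := by
    rintro G ⟨⟨p, hp, rfl⟩, hG⟩
    rw [mem_coe, mem_image]
    refine ⟨p, mem_filter.mpr ⟨mem_RF.mpr hp, ?_⟩, rfl⟩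
    rintro ⟨u, z, huz⟩
    have h5 : TwoCards (GG K p) := ⟨u, z, hDet _ K C p u z hK hp huz⟩
    exact hG ⟨recon_of_two h3 h5, detTwo_of h5⟩
  rw [e1, Set.ncard_coe_finset, e2]
  refine le_trans ?_ h1
  have h6 := Set.ncard_le_ncard e3 (Set.toFinite _)
  rw [Set.ncard_coe_finset] at h6
  exact_mod_cast h6.trans Finset.card_image_le

/-- classes of graphs -/
theorem classes (hC : StClass) : ∀ P, LeafClosed P → ∀ γ : ℝ, Real.exp 1 < γ → Growth P γ →
    ∃ c : ℝ, 0 < c ∧ ∃ n₀ : ℕ, ∀ n : ℕ, n₀ ≤ n →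
    (({G | G ∈ P n ∧ ¬ (Reconstructible G ∧ (G.Connected → DetTwo G))} :
      Set (SimpleGraph (Fin n))).ncard : ℝ) ≤ (n : ℝ) ^ (-c) * ((P n).ncard : ℝ) := by
  intro P hP γ hγ hG
  obtain ⟨c, hc, n₀, h⟩ := hC P hP γ hγ hG
  refine ⟨c, hc, max n₀ 3, ?_⟩
  intro n hn
  have hn0 : n₀ ≤ n := le_trans (le_max_left _ _) hn
  have h3 : 3 ≤ Fintype.card (Fin n) := by
    rw [Fintype.card_fin]; exact le_trans (le_max_right _ _) hn
  refine le_trans ?_ (h n hn0)
  have hsub : {G | G ∈ P n ∧ ¬ (Reconstructible G ∧ (G.Connected → DetTwo G))} ⊆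
      {G | G ∈ P n ∧ G.Connected ∧ ¬ TwoCards G} := by
    rintro G ⟨hG1, hG2⟩
    have hcon : G.Connected := by
      by_contra hdis
      exact hG2 ⟨recon_of_disc h3 hdis, fun hh => absurd hh hdis⟩
    refine ⟨hG1, hcon, fun h5 => hG2 ⟨recon_of_two h3 h5, fun _ => detTwo_of h5⟩⟩
  exact_mod_cast Set.ncard_le_ncard hsub (Set.toFinite _)

end Pool.Agent.N375.RF
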