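import Pool.Agent.N375.RF.Basic

set_option autoImplicit false
set_option linter.dupNamespace false
set_option linter.unusedSectionVars false

/-!
# Project RF: assembly on forests, part A (combinatorics and the bounds for one vertex set)
-/

namespace Pool.Agent.N375.RF

open Finset Classical

variable {V : Type} [Fintype V]

theorem TIso.card_eq {p q : V → V} {S S' : Finset V} {v v' : V} (h : TIso p S v q S' v') :
    S.card = S'.card := by
  obtain ⟨σ, _, h1, _⟩ := h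
  apply Finset.card_bij (fun x _ => σ x)
  · intro x hx; exact (h1 x).mpr hx
  · intro x _ y _ hxy; exact σ.injective hxy
  · intro y hy
    refine ⟨σ.symm y, ?_, σ.apply_symm_apply y⟩
    rw [← h1, σ.apply_symm_apply]; exact hy

theorem N_pos_iff {C : Finset V} {p : V → V} {s : ℕ} :
    1 ≤ N C p s ↔ ∃ v ∈ C, (L p v).card = s := by
  unfold N
  rw [Nat.one_le_iff_ne_zero, Ne, Finset.card_eq_zero]
  constructor
  · intro h
    obtain ⟨v, hv⟩ := Finset.nonempty_iff_ne_empty.mpr h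
    exact ⟨v, (mem_filter.mp hv).1, (mem_filter.mp hv).2⟩
  · rintro ⟨v, hv, hs⟩ h
    have : v ∈ C.filter (fun v => (L p v).card = s) := mem_filter.mpr ⟨hv, hs⟩
    rw [h] at this
    simp at this

theorem good_of {C : Finset V} {p : V → V} (h : IsRF C p) (T Λ D : ℕ) (hTD : D + 3 ≤ T)
    (hE0 : ¬ ∀ s, T ≤ s → s ≤ Λ → N C p s = 0)
    (hE2 : ¬ ∀ s, 2 ≤ s → s ≤ D → N C p s = 0)
    (hM : ∀ M, T ≤ M → M ≤ Λ → 1 ≤ N C p M → (∀ s, M < s → s ≤ Λ → N C p s = 0) →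
      ¬ TB C p M) : Good C p := by
  push Not at hE0 hE2
  obtain ⟨s₀, hs1, hs2, hs3⟩ := hE0
  obtain ⟨r₀, hr1, hr2, hr3⟩ := hE2
  obtain ⟨M, hMm, hmax⟩ := Finset.exists_max_image
    ((Finset.Icc T Λ).filter (fun s => N C p s ≠ 0)) id
    ⟨s₀, mem_filter.mpr ⟨mem_Icc.mpr ⟨hs1, hs2⟩, hs3⟩⟩
  obtain ⟨hMI, hMN⟩ := mem_filter.mp hMm
  obtain ⟨hM1, hM2⟩ := mem_Icc.mp hMI
  have hM3 : 1 ≤ N C p M := Nat.one_le_iff_ne_zero.mpr hMN
  have hM4 : ∀ s, M < s → s ≤ Λ → N C p s = 0 := by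
    intro s hs hs'
    by_contra hne
    have := hmax s (mem_filter.mpr ⟨mem_Icc.mpr ⟨by omega, hs'⟩, hne⟩)
    simp only [id] at this
    omega
  have hTB := hM M hM1 hM2 hM3 hM4
  obtain ⟨v, hv, hvs⟩ := N_pos_iff.mp hM3
  obtain ⟨r, hr, hrs⟩ := N_pos_iff.mp (Nat.one_le_iff_ne_zero.mpr hr3)
  obtain ⟨u, huL, hu⟩ := h.exists_leaf hv (by rw [hvs]; omega)
  obtain ⟨z, hzL, hz⟩ := h.exists_leaf hr (by rw [hrs]; omega)
  refine ⟨u, z, hu, hz, v, hv, r, hr, huL, hzL, by omega, by omega, by omega, ?_⟩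
  intro v' hv' hiso
  apply hTB
  refine ⟨v, hv, v', hv', u, hvs, ?_, huL, hu, hiso⟩
  have h1 := hiso.card_eq
  rw [card_erase_of_mem huL] at h1
  omega

/-- the exceptional sets cover the forests which are not good -/
theorem cover {C : Finset V} (a T Λ D : ℕ) (hTD : D + 3 ≤ T) (ν ν' b₁ b₂ : ℕ → ℕ)
    (hν : ∀ M, T ≤ M → M < Λ → ν M ≤ b₁ M + 1) (hν' : ∀ M, T ≤ M → M < Λ → ν' M ≤ b₂ M + 1)
    (hb1 : Fintype.card V ≤ b₁ Λ) (hb2 : Fintype.card V ≤ b₂ Λ)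
    (h8 : ∀ e : ℕ, Cᶜ.card ≤ 8 * e → a ≤ e) (hT1 : 2 ≤ T) (hΛ : 1 ≤ Λ) :
    (RF C).filter (fun p => ¬ Good C p) ⊆
      (RF C).filter (fun p => 8 * (leaves C p).card < Cᶜ.card) ∪
      ((RF C).filter (fun p => a ≤ (leaves C p).card ∧ ∀ s, T ≤ s → s ≤ Λ → N C p s = 0) ∪
      ((RF C).filter (fun p => a ≤ (leaves C p).card ∧ ∀ s, 2 ≤ s → s ≤ D → N C p s = 0) ∪
      ((Finset.Ico T Λ).biUnion (fun M => (RF C).filter (fun p => a ≤ (leaves C p).card ∧
        N C p (M + 1) = 0 ∧ ν M ≤ N C p M)) ∪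
      ((Finset.Ico T Λ).biUnion (fun M => (RF C).filter (fun p => a ≤ (leaves C p).card ∧
        N C p (M + 1) = 0 ∧ N C p M < ν M ∧ ν' M ≤ N C p (M - 1))) ∪
      (Finset.Icc T Λ).biUnion (fun t => (RF C).filter (fun p => N C p t ≤ b₁ t ∧
        N C p (t - 1) ≤ b₂ t ∧ TB C p t)))))) := by
  intro p hp
  obtain ⟨hpR, hng⟩ := mem_filter.mp hp
  have h : IsRF C p := mem_RF.mp hpR
  by_contra hcon
  rw [mem_union, mem_union, mem_union, mem_union, mem_union] at hcon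
  push Not at hcon
  obtain ⟨c1, c2, c3, c4, c5, c6⟩ := hcon
  have ha : a ≤ (leaves C p).card := by
    apply h8
    by_contra hlt
    exact c1 (mem_filter.mpr ⟨hpR, by omega⟩)
  apply hng
  apply good_of h T Λ D hTD
  · intro hall
    apply c2
    rw [mem_filter]
    exact ⟨hpR, ha, hall⟩
  · intro hall
    apply c3
    exact (@Finset.mem_filter _ _ (_) _ _).mpr ⟨hpR, ha, hall⟩
  · intro M hM1 hM2 hM3 hM4 hTB
    apply c6
    rw [mem_biUnion]
    refine ⟨M, mem_Icc.mpr ⟨hM1, hM2⟩, mem_filter.mpr ⟨hpR, ?_, ?_, hTB⟩⟩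
    · rcases Nat.lt_or_ge M Λ with hlt | hge
      · have h0 : N C p (M + 1) = 0 := hM4 (M + 1) (by omega) (by omega)
        by_contra hcon
        apply c4
        rw [mem_biUnion]
        refine ⟨M, mem_Ico.mpr ⟨hM1, hlt⟩, mem_filter.mpr ⟨hpR, ha, h0, ?_⟩⟩
        have := hν M hM1 hlt
        omega
      · have hMΛ : M = Λ := le_antisymm hM2 hge
        subst hMΛ
        have h1 := h.N_mul_le M
        have h2 : N C p M ≤ N C p M * M := Nat.le_mul_of_pos_right _ (by omega)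
        omega
    · rcases Nat.lt_or_ge M Λ with hlt | hge
      · have h0 : N C p (M + 1) = 0 := hM4 (M + 1) (by omega) (by omega)
        by_contra hcon
        apply c5
        rw [mem_biUnion]
        refine ⟨M, mem_Ico.mpr ⟨hM1, hlt⟩, mem_filter.mpr ⟨hpR, ha, h0, ?_, ?_⟩⟩
        · by_contra hcon2
          apply c4
          rw [mem_biUnion]
          exact ⟨M, mem_Ico.mpr ⟨hM1, hlt⟩, mem_filter.mpr ⟨hpR, ha, h0, by omega⟩⟩
        · have := hν' M hM1 hlt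
          omega
      · have hMΛ : M = Λ := le_antisymm hM2 hge
        subst hMΛ
        have h1 := h.N_mul_le (M - 1)
        have h2 : N C p (M - 1) ≤ N C p (M - 1) * (M - 1) :=
          Nat.le_mul_of_pos_right _ (by omega)
        omega

/-- `k! e^(k-1) ≤ k^(k+1)` -/
theorem fact_bound (k : ℕ) (hk : 1 ≤ k) :
    (k.factorial : ℝ) * Real.exp ((k : ℝ) - 1) ≤ (k : ℝ) ^ (k + 1) := by
  induction k, hk using Nat.le_induction with
  | base => simp
  | succ k hk ih =>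
    have hk0 : (0 : ℝ) < k := by exact_mod_cast hk
    have h1 : Real.exp 1 * (k : ℝ) ^ (k + 1) ≤ ((k : ℝ) + 1) ^ (k + 1) := by
      have h2 : (1 : ℝ) / (k + 1) ≤ Real.log ((k + 1) / k) := by
        have h3 := Real.one_sub_inv_le_log_of_pos (x := ((k : ℝ) + 1) / k) (by positivity)
        rw [inv_div] at h3
        calc (1 : ℝ) / (k + 1) = 1 - k / (k + 1) := by field_simp; ring
          _ ≤ _ := h3
      have h4 : Real.exp 1 ≤ (((k : ℝ) + 1) / k) ^ (k + 1) := by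
        rw [← Real.exp_log (show (0 : ℝ) < (((k : ℝ) + 1) / k) ^ (k + 1) by positivity),
          Real.log_pow]
        apply Real.exp_le_exp.mpr
        push_cast
        rw [div_le_iff₀ (by positivity)] at h2
        linarith
      rw [div_pow, le_div_iff₀ (by positivity)] at h4
      exact h4
    rw [Nat.factorial_succ]
    push_cast
    calc ((k : ℝ) + 1) * (k.factorial : ℝ) * Real.exp ((k : ℝ) + 1 - 1)
        = ((k : ℝ) + 1) * (Real.exp 1 * ((k.factorial : ℝ) * Real.exp ((k : ℝ) - 1))) := by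
          rw [show (k : ℝ) + 1 - 1 = 1 + (k - 1) by ring, Real.exp_add]
          ring
      _ ≤ ((k : ℝ) + 1) * (Real.exp 1 * (k : ℝ) ^ (k + 1)) := by gcongr
      _ ≤ ((k : ℝ) + 1) * ((k : ℝ) + 1) ^ (k + 1) := by gcongr
      _ = ((k : ℝ) + 1) ^ (k + 1 + 1) := by ring

/-- the factor in Lemma 4 -/
theorem tree_ratio (t : ℕ) (ht : 3 ≤ t) :
    (((t - 2).factorial : ℕ) : ℝ) ≤ (((t - 1) ^ (t - 3) : ℕ) : ℝ) *
      (Real.exp 2 * (t : ℝ) ^ 2 * Real.exp (-(t : ℝ))) := by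
  obtain ⟨k, rfl⟩ : ∃ k, t = k + 3 := ⟨t - 3, by omega⟩
  rw [show k + 3 - 2 = k + 1 by omega, show k + 3 - 1 = k + 2 by omega,
    show k + 3 - 3 = k by omega]
  have h1 := fact_bound (k + 2) (by omega)
  rw [Nat.factorial_succ] at h1
  push_cast at h1 ⊢
  have hk0 : (0 : ℝ) < (k : ℝ) + 2 := by positivity
  have h2 : ((k + 1).factorial : ℝ) * Real.exp ((k : ℝ) + 1) ≤ ((k : ℝ) + 2) ^ (k + 2) := by
    have h3 : ((k : ℝ) + 2) * (((k + 1).factorial : ℝ) * Real.exp ((k : ℝ) + 1)) ≤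
        ((k : ℝ) + 2) * ((k : ℝ) + 2) ^ (k + 2) := by
      calc ((k : ℝ) + 2) * (((k + 1).factorial : ℝ) * Real.exp ((k : ℝ) + 1))
          = ((k : ℝ) + 1 + 1) * ((k + 1).factorial : ℝ) * Real.exp ((k : ℝ) + 2 - 1) := by
            rw [show (k : ℝ) + 2 - 1 = k + 1 by ring]; ring
        _ ≤ ((k : ℝ) + 2) ^ (k + 2 + 1) := h1
        _ = ((k : ℝ) + 2) * ((k : ℝ) + 2) ^ (k + 2) := by ring
    exact le_of_mul_le_mul_left h3 hk0
  have h4 : Real.exp 2 * Real.exp (-((k : ℝ) + 3)) * Real.exp ((k : ℝ) + 1) = 1 := by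
    rw [← Real.exp_add, ← Real.exp_add]
    rw [show (2 : ℝ) + -((k : ℝ) + 3) + ((k : ℝ) + 1) = 0 by ring, Real.exp_zero]
  have h5 : ((k + 1).factorial : ℝ) = ((k + 1).factorial : ℝ) * Real.exp ((k : ℝ) + 1) *
      (Real.exp 2 * Real.exp (-((k : ℝ) + 3))) := by
    calc ((k + 1).factorial : ℝ) = ((k + 1).factorial : ℝ) *
        (Real.exp 2 * Real.exp (-((k : ℝ) + 3)) * Real.exp ((k : ℝ) + 1)) := by rw [h4, mul_one]
      _ = _ := by ring
  calc ((k + 1).factorial : ℝ) = ((k + 1).factorial : ℝ) * Real.exp ((k : ℝ) + 1) *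
      (Real.exp 2 * Real.exp (-((k : ℝ) + 3))) := h5
    _ ≤ ((k : ℝ) + 2) ^ (k + 2) * (Real.exp 2 * Real.exp (-((k : ℝ) + 3))) := by gcongr
    _ = ((k : ℝ) + 2) ^ k * (Real.exp 2 * ((k : ℝ) + 2) ^ 2 * Real.exp (-((k : ℝ) + 3))) := by
        ring
    _ ≤ ((k : ℝ) + 2) ^ k * (Real.exp 2 * ((k : ℝ) + 3) ^ 2 * Real.exp (-((k : ℝ) + 3))) := by
        gcongr
        norm_num

end Pool.Agent.N375.RF
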