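import Pool.Agent.N375.RF.MainA

set_option autoImplicit false
set_option linter.dupNamespace false
set_option linter.unusedSectionVars false

/-!
# Project RF: assembly on forests, part B (bounds of the exceptional sets)
-/

namespace Pool.Agent.N375.RF

open Finset Classical

variable {V : Type} [Fintype V]

theorem bE10 (h10 : St10) {C : Finset V} {α : ℝ} (hα : 0 < α)
    (hn : 0 < (Fintype.card V : ℝ)) (hC : C.Nonempty)
    (hc : α * (Fintype.card V : ℝ) ≤ (Cᶜ.card : ℝ)) :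
    (((RF C).filter (fun p => 8 * (leaves C p).card < Cᶜ.card)).card : ℝ) ≤
      ((RF C).card : ℝ) * (16 / (α * (Fintype.card V : ℝ))) := by
  have h1 : ((((RF C).filter (fun p => 8 * (leaves C p).card < Cᶜ.card)).card * Cᶜ.card : ℕ) : ℝ)
      ≤ ((16 * (RF C).card : ℕ) : ℝ) := by exact_mod_cast h10 V C hC
  push_cast at h1
  rw [mul_div_assoc', le_div_iff₀ (by positivity)]
  calc _ ≤ (((RF C).filter (fun p => 8 * (leaves C p).card < Cᶜ.card)).card : ℝ) *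
        (Cᶜ.card : ℝ) := by gcongr
    _ ≤ 16 * ((RF C).card : ℝ) := h1
    _ = _ := by ring

theorem bE0 (h0 : St0) {C : Finset V} {α β : ℝ} (hα : 0 < α) (hβ : 0 < β)
    (hn : 0 < (Fintype.card V : ℝ)) (a T Λ : ℕ) (hT : 1 ≤ T) (hΛ : 3 * T ≤ Λ)
    (hc : α * (Fintype.card V : ℝ) / 2 ≤ ((C.card - Fintype.card V / Λ : ℕ) : ℝ))
    (ha : β * (Fintype.card V : ℝ) / 2 ≤ ((a - 2 * T : ℕ) : ℝ)) :
    (((RF C).filter (fun p => a ≤ (leaves C p).card ∧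
      ∀ s, T ≤ s → s ≤ Λ → N C p s = 0)).card : ℝ) ≤
      ((RF C).card : ℝ) * (4 * T / (α * (Fintype.card V : ℝ)) * (2 / β) ^ T) := by
  have h1 := h0 V C a T Λ hT hΛ
  set E := ((RF C).filter (fun p => a ≤ (leaves C p).card ∧
      ∀ s, T ≤ s → s ≤ Λ → N C p s = 0)).card with hE
  have h2 : (E : ℝ) * (((C.card - Fintype.card V / Λ : ℕ) : ℝ) * ((a - 2 * T : ℕ) : ℝ) ^ T) ≤
      ((RF C).card : ℝ) * (2 * T * (Fintype.card V : ℝ) ^ T) := by exact_mod_cast h1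
  set x := (Fintype.card V : ℝ) with hx
  have h3 : (E : ℝ) * (α * x / 2 * (β * x / 2) ^ T) ≤ ((RF C).card : ℝ) * (2 * T * x ^ T) := by
    refine le_trans ?_ h2
    gcongr
  have h4 : (0 : ℝ) < α * x / 2 * (β * x / 2) ^ T := by positivity
  rw [← le_div_iff₀ h4] at h3
  refine h3.trans (le_of_eq ?_)
  have hx0 : x ≠ 0 := hn.ne'
  rw [div_pow, div_pow, mul_pow]
  field_simp
  ring

theorem bE2 (h2 : St2) {C : Finset V} {α β : ℝ} (hα : 0 < α) (hβ : 0 < β)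
    (hn : 0 < (Fintype.card V : ℝ)) (a D : ℕ) (hD : 2 ≤ D)
    (hc : α * (Fintype.card V : ℝ) / 2 ≤ ((C.card - Fintype.card V / D : ℕ) : ℝ))
    (ha : β * (Fintype.card V : ℝ) ≤ (a : ℝ)) :
    (((RF C).filter (fun p => a ≤ (leaves C p).card ∧
      ∀ s, 2 ≤ s → s ≤ D → N C p s = 0)).card : ℝ) ≤
      ((RF C).card : ℝ) * (4 / (α * β * (Fintype.card V : ℝ))) := by
  have h1 := h2 V C a D hD
  set E := ((RF C).filter (fun p => a ≤ (leaves C p).card ∧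
      ∀ s, 2 ≤ s → s ≤ D → N C p s = 0)).card with hE
  have h2 : (E : ℝ) * (((C.card - Fintype.card V / D : ℕ) : ℝ) * (a : ℝ)) ≤
      ((RF C).card : ℝ) * (2 * (Fintype.card V : ℝ)) := by exact_mod_cast h1
  set x := (Fintype.card V : ℝ) with hx
  have h3 : (E : ℝ) * (α * x / 2 * (β * x)) ≤ ((RF C).card : ℝ) * (2 * x) := by
    refine le_trans ?_ h2
    gcongr
  have h4 : (0 : ℝ) < α * x / 2 * (β * x) := by positivity
  rw [← le_div_iff₀ h4] at h3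
  refine h3.trans (le_of_eq ?_)
  have hx0 : x ≠ 0 := hn.ne'
  field_simp
  ring

theorem bEA (hA : StA) {C : Finset V} {β ν₀ : ℝ} (hβ : 0 < β) (hν₀ : 0 < ν₀)
    (hn : 0 < (Fintype.card V : ℝ)) (a M ν : ℕ) (hM : 1 ≤ M) (hν : ν₀ ≤ (ν : ℝ))
    (ha : β * (Fintype.card V : ℝ) / 2 ≤ ((a - M : ℕ) : ℝ)) :
    (((RF C).filter (fun p => a ≤ (leaves C p).card ∧ N C p (M + 1) = 0 ∧
      ν ≤ N C p M)).card : ℝ) ≤ ((RF C).card : ℝ) * (8 / (β * ν₀)) := by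
  have h1 := hA V C a M ν hM
  set E := ((RF C).filter (fun p => a ≤ (leaves C p).card ∧ N C p (M + 1) = 0 ∧
      ν ≤ N C p M)).card with hE
  have h2 : (E : ℝ) * ((ν : ℝ) * M * ((a - M : ℕ) : ℝ)) ≤
      ((RF C).card : ℝ) * (2 * (M + 1) * (Fintype.card V : ℝ)) := by exact_mod_cast h1
  set x := (Fintype.card V : ℝ) with hx
  have hM0 : (1 : ℝ) ≤ (M : ℝ) := by exact_mod_cast hM
  have h3 : (E : ℝ) * (ν₀ * M * (β * x / 2)) ≤ ((RF C).card : ℝ) * (2 * (2 * M) * x) := by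
    calc (E : ℝ) * (ν₀ * M * (β * x / 2)) ≤ (E : ℝ) * ((ν : ℝ) * M * ((a - M : ℕ) : ℝ)) := by
          gcongr
      _ ≤ ((RF C).card : ℝ) * (2 * (M + 1) * x) := h2
      _ ≤ ((RF C).card : ℝ) * (2 * (2 * M) * x) := by
          gcongr
          linarith
  have h4 : (0 : ℝ) < ν₀ * M * (β * x / 2) := by positivity
  rw [← le_div_iff₀ h4] at h3
  refine h3.trans (le_of_eq ?_)
  have hx0 : x ≠ 0 := hn.ne'
  have hM00 : (M : ℝ) ≠ 0 := by positivity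
  field_simp
  ring

theorem bEB (hB : StB) {C : Finset V} {β : ℝ} (hβ : 0 < β)
    (hn : 0 < (Fintype.card V : ℝ)) (a M ν b : ℕ) (hM : 2 ≤ M)
    (hν : Real.exp ((M : ℝ) / 2) ≤ (ν : ℝ)) (hb : (b : ℝ) ≤ 2 * Real.exp ((M : ℝ) / 4))
    (ha : β * (Fintype.card V : ℝ) / 2 ≤ ((a - M - M * b : ℕ) : ℝ)) :
    (((RF C).filter (fun p => a ≤ (leaves C p).card ∧ N C p (M + 1) = 0 ∧ N C p M < b ∧
      ν ≤ N C p (M - 1))).card : ℝ) ≤
      ((RF C).card : ℝ) * (8 / β * Real.exp (-((M : ℝ) / 4))) := by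
  have h1 := hB V C a M ν b hM
  set E := ((RF C).filter (fun p => a ≤ (leaves C p).card ∧ N C p (M + 1) = 0 ∧ N C p M < b ∧
      ν ≤ N C p (M - 1))).card with hE
  have h2 : (E : ℝ) * ((ν : ℝ) * ((M - 1 : ℕ) : ℝ) * ((a - M - M * b : ℕ) : ℝ)) ≤
      ((RF C).card : ℝ) * ((b : ℝ) * M * (Fintype.card V : ℝ)) := by exact_mod_cast h1
  set x := (Fintype.card V : ℝ) with hx
  have hM0 : (2 : ℝ) ≤ (M : ℝ) := by exact_mod_cast hM
  have hM1 : (M : ℝ) / 2 ≤ ((M - 1 : ℕ) : ℝ) := by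
    rw [Nat.cast_sub (by omega)]
    push_cast
    linarith
  have h3 : (E : ℝ) * (Real.exp ((M : ℝ) / 2) * ((M : ℝ) / 2) * (β * x / 2)) ≤
      ((RF C).card : ℝ) * (2 * Real.exp ((M : ℝ) / 4) * M * x) := by
    calc _ ≤ (E : ℝ) * ((ν : ℝ) * ((M - 1 : ℕ) : ℝ) * ((a - M - M * b : ℕ) : ℝ)) := by
          gcongr
      _ ≤ ((RF C).card : ℝ) * ((b : ℝ) * M * x) := h2
      _ ≤ _ := by gcongr
  have h4 : (0 : ℝ) < Real.exp ((M : ℝ) / 2) * ((M : ℝ) / 2) * (β * x / 2) := by positivity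
  rw [← le_div_iff₀ h4] at h3
  refine h3.trans (le_of_eq ?_)
  have hx0 : x ≠ 0 := hn.ne'
  have hM00 : (M : ℝ) ≠ 0 := by positivity
  have h5 : Real.exp ((M : ℝ) / 2) = Real.exp ((M : ℝ) / 4) * Real.exp ((M : ℝ) / 4) := by
    rw [← Real.exp_add]; congr 1; ring
  rw [h5, Real.exp_neg]
  have h6 : Real.exp ((M : ℝ) / 4) ≠ 0 := (Real.exp_pos _).ne'
  field_simp
  ring

theorem bE4 (h4 : St4) {C : Finset V} (t b₁ b₂ : ℕ) (ht : 3 ≤ t)
    (hb1 : (b₁ : ℝ) ≤ Real.exp ((t : ℝ) / 4)) (hb2 : (b₂ : ℝ) ≤ Real.exp ((t : ℝ) / 2)) :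
    (((RF C).filter (fun p => N C p t ≤ b₁ ∧ N C p (t - 1) ≤ b₂ ∧ TB C p t)).card : ℝ) ≤
      ((RF C).card : ℝ) * (Real.exp 2 * (t : ℝ) ^ 3 * Real.exp (-((t : ℝ) / 4))) := by
  have h1 := h4 V C t b₁ b₂ ht
  set E := ((RF C).filter (fun p => N C p t ≤ b₁ ∧ N C p (t - 1) ≤ b₂ ∧ TB C p t)).card with hE
  have h2 : (E : ℝ) * (((t - 1) ^ (t - 3) : ℕ) : ℝ) ≤
      ((RF C).card : ℝ) * ((b₁ : ℝ) * b₂ * t * ((t - 2).factorial : ℝ)) := by exact_mod_cast h1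
  have h3 := tree_ratio t ht
  have h5 : (0 : ℝ) < (((t - 1) ^ (t - 3) : ℕ) : ℝ) := by
    have : 0 < (t - 1) ^ (t - 3) := Nat.pow_pos (by omega)
    exact_mod_cast this
  have h6 : (E : ℝ) * (((t - 1) ^ (t - 3) : ℕ) : ℝ) ≤
      (((RF C).card : ℝ) * (Real.exp 2 * (t : ℝ) ^ 3 * Real.exp (-((t : ℝ) / 4)))) *
        (((t - 1) ^ (t - 3) : ℕ) : ℝ) := by
    calc _ ≤ ((RF C).card : ℝ) * ((b₁ : ℝ) * b₂ * t * ((t - 2).factorial : ℝ)) := h2
      _ ≤ ((RF C).card : ℝ) * (Real.exp ((t : ℝ) / 4) * Real.exp ((t : ℝ) / 2) * t *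
          ((((t - 1) ^ (t - 3) : ℕ) : ℝ) *
            (Real.exp 2 * (t : ℝ) ^ 2 * Real.exp (-(t : ℝ))))) := by gcongr
      _ = (((RF C).card : ℝ) * (Real.exp 2 * (t : ℝ) ^ 3 *
            (Real.exp ((t : ℝ) / 4) * Real.exp ((t : ℝ) / 2) * Real.exp (-(t : ℝ))))) *
          (((t - 1) ^ (t - 3) : ℕ) : ℝ) := by ring
      _ = _ := by
          rw [← Real.exp_add, ← Real.exp_add]
          congr 5
          ring
  exact le_of_mul_le_mul_right h6 h5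

end Pool.Agent.N375.RF
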