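import Pool.Agent.N375.RF.MainB

set_option autoImplicit false
set_option linter.dupNamespace false
set_option linter.unusedSectionVars false

/-!
# Project RF: assembly on forests, part C (one vertex set)
-/

namespace Pool.Agent.N375.RF

open Finset Classical

variable {V : Type} [Fintype V]

/-- all bounds together, for one vertex set -/
theorem total (hA : StA) (hB : StB) (h0 : St0) (h2 : St2) (h4 : St4) (h10 : St10)
    {C : Finset V} {α β : ℝ} (hα : 0 < α) (hβ : 0 < β) (_hβα : 8 * β ≤ α)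
    (a T Λ D : ℕ) (hn : 0 < (Fintype.card V : ℝ))
    (hC : α * (Fintype.card V : ℝ) ≤ (C.card : ℝ))
    (hC' : α * (Fintype.card V : ℝ) ≤ (Cᶜ.card : ℝ))
    (ha1 : β * (Fintype.card V : ℝ) ≤ (a : ℝ))
    (ha2 : ∀ e : ℕ, Cᶜ.card ≤ 8 * e → a ≤ e)
    (hD : 4 / α ≤ (D : ℝ)) (hD2 : 2 ≤ D) (hTD : D + 3 ≤ T) (hTΛ : 3 * T ≤ Λ)
    (hΛ1 : 4 / α ≤ (Λ : ℝ))
    (hΛ2 : (Fintype.card V : ℝ) ≤ Real.exp ((Λ : ℝ) / 8))
    (hx : 16 * (Λ + 1 : ℝ) ≤ β * (Fintype.card V : ℝ)) :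
    (((RF C).filter (fun p => ¬ Good C p)).card : ℝ) ≤ ((RF C).card : ℝ) *
      (16 / (α * (Fintype.card V : ℝ)) + 4 * T / (α * (Fintype.card V : ℝ)) * (2 / β) ^ T +
        4 / (α * β * (Fintype.card V : ℝ)) +
        ((Λ : ℝ) + 1) * (16 / β * Real.exp (-((T : ℝ) / 4)) +
          64 * Λ / (β ^ 2 * (Fintype.card V : ℝ)) +
          Real.exp 2 * (Λ : ℝ) ^ 3 * Real.exp (-((T : ℝ) / 4)))) := by
  set x := (Fintype.card V : ℝ) with hxdef
  set R := ((RF C).card : ℝ) with hR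
  have hR0 : 0 ≤ R := by positivity
  have hCne : C.Nonempty := by
    rw [← Finset.card_pos]
    have : (0 : ℝ) < (C.card : ℝ) := lt_of_lt_of_le (by positivity) hC
    exact_mod_cast this
  -- thresholds
  let ν₀ : ℕ → ℝ := fun M => min (Real.exp ((M : ℝ) / 4)) (β * x / (8 * M))
  let ν : ℕ → ℕ := fun M => ⌈ν₀ M⌉₊
  let ν' : ℕ → ℕ := fun M => ⌈Real.exp ((M : ℝ) / 2)⌉₊
  let b₁ : ℕ → ℕ := fun M => ⌊Real.exp ((M : ℝ) / 4)⌋₊
  let b₂ : ℕ → ℕ := fun M => ⌊Real.exp ((M : ℝ) / 2)⌋₊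
  have hcov := cover (C := C) a T Λ D hTD ν ν' b₁ b₂
    (fun M _ _ => by
      have h1 : ν M ≤ ⌈Real.exp ((M : ℝ) / 4)⌉₊ := Nat.ceil_le_ceil (min_le_left _ _)
      exact h1.trans (Nat.ceil_le_floor_add_one _))
    (fun M _ _ => Nat.ceil_le_floor_add_one _)
    (by
      apply Nat.le_floor
      refine le_trans hΛ2 (Real.exp_le_exp.mpr ?_)
      have : (0 : ℝ) ≤ (Λ : ℝ) := by positivity
      linarith)
    (by
      apply Nat.le_floor
      refine le_trans hΛ2 (Real.exp_le_exp.mpr ?_)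
      have : (0 : ℝ) ≤ (Λ : ℝ) := by positivity
      linarith)
    ha2 (by omega) (by omega)
  -- natural subtractions
  have hsub1 : ∀ k : ℕ, 4 / α ≤ (k : ℝ) → 0 < k →
      α * x / 2 ≤ ((C.card - Fintype.card V / k : ℕ) : ℝ) := by
    intro k hk hk0
    have h3 : ((Fintype.card V / k : ℕ) : ℝ) ≤ x / k := Nat.cast_div_le
    have h5 : x / k ≤ α * x / 4 := by
      have hk1 : (0 : ℝ) < k := by exact_mod_cast hk0
      rw [div_le_iff₀ hk1]
      rw [div_le_iff₀ hα] at hk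
      nlinarith
    have h6 : (C.card : ℝ) - ((Fintype.card V / k : ℕ) : ℝ) ≤
        ((C.card - Fintype.card V / k : ℕ) : ℝ) := by
      rw [sub_le_iff_le_add]
      exact_mod_cast (by omega : C.card ≤ C.card - Fintype.card V / k + Fintype.card V / k)
    nlinarith
  have hsub2 : ∀ j k : ℕ, (k : ℝ) ≤ β * x / 2 → β * x / 2 ≤ ((a - k : ℕ) : ℝ) := by
    intro j k hk
    have h6 : (a : ℝ) - (k : ℝ) ≤ ((a - k : ℕ) : ℝ) := by
      rw [sub_le_iff_le_add]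
      exact_mod_cast (by omega : a ≤ a - k + k)
    linarith
  have hΛ0 : (0 : ℝ) ≤ (Λ : ℝ) := by positivity
  have hTr : (T : ℝ) ≤ (Λ : ℝ) := by exact_mod_cast (by omega : T ≤ Λ)
  have hTr0 : (0 : ℝ) ≤ (T : ℝ) := by positivity
  -- the six bounds
  have B1 := bE10 h10 hα hn hCne hC'
  have B2 := bE0 h0 (C := C) hα hβ hn a T Λ (by omega) hTΛ
    (hsub1 Λ hΛ1 (by omega)) (hsub2 0 (2 * T) (by push_cast; linarith))
  have B3 := bE2 h2 (C := C) hα hβ hn a D hD2 (hsub1 D hD (by omega)) ha1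
  have hMpos : ∀ M : ℕ, M ∈ Finset.Ico T Λ → 3 ≤ M ∧ (M : ℝ) ≤ (Λ : ℝ) ∧ (T : ℝ) ≤ (M : ℝ) := by
    intro M hM
    obtain ⟨h3, h5⟩ := mem_Ico.mp hM
    exact ⟨by omega, by exact_mod_cast h5.le, by exact_mod_cast h3⟩
  have hν₀pos : ∀ M ∈ Finset.Ico T Λ, 0 < ν₀ M := by
    intro M hM
    have h3 := (hMpos M hM).1
    have h5 : (0 : ℝ) < (M : ℝ) := by exact_mod_cast (by omega : 0 < M)
    exact lt_min (Real.exp_pos _) (by positivity)
  have hinv : ∀ M ∈ Finset.Ico T Λ, 1 / ν₀ M ≤ Real.exp (-((T : ℝ) / 4)) + 8 * Λ / (β * x) := by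
    intro M hM
    obtain ⟨h3, h5, h7⟩ := hMpos M hM
    have hM0 : (0 : ℝ) < (M : ℝ) := by exact_mod_cast (by omega : 0 < M)
    have hβx : 0 < β * x := by positivity
    rcases min_choice (Real.exp ((M : ℝ) / 4)) (β * x / (8 * M)) with hmin | hmin
    · have h8 : ν₀ M = Real.exp ((M : ℝ) / 4) := hmin
      rw [h8, one_div, ← Real.exp_neg]
      have h9 : Real.exp (-((M : ℝ) / 4)) ≤ Real.exp (-((T : ℝ) / 4)) :=
        Real.exp_le_exp.mpr (by linarith)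
      have h10 : 0 ≤ 8 * Λ / (β * x) := by positivity
      linarith
    · have h8 : ν₀ M = β * x / (8 * M) := hmin
      rw [h8, one_div, inv_div]
      have h9 : 8 * (M : ℝ) / (β * x) ≤ 8 * Λ / (β * x) := by gcongr
      have h10 : 0 ≤ Real.exp (-((T : ℝ) / 4)) := (Real.exp_pos _).le
      linarith
  have B4 : ∀ M ∈ Finset.Ico T Λ, (((RF C).filter (fun p => a ≤ (leaves C p).card ∧
      N C p (M + 1) = 0 ∧ ν M ≤ N C p M)).card : ℝ) ≤
      R * (8 / β * (Real.exp (-((T : ℝ) / 4)) + 8 * Λ / (β * x))) := by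
    intro M hM
    obtain ⟨h3, h5, h7⟩ := hMpos M hM
    have h8 := bEA hA (C := C) hβ (hν₀pos M hM) hn a M (ν M) (by omega) (Nat.le_ceil _)
      (hsub2 0 M (by linarith))
    refine h8.trans ?_
    have h9 := hinv M hM
    have h10 : 8 / (β * ν₀ M) = 8 / β * (1 / ν₀ M) := by
      rw [div_mul_div_comm, mul_one]
    rw [h10]
    gcongr
  have B5 : ∀ M ∈ Finset.Ico T Λ, (((RF C).filter (fun p => a ≤ (leaves C p).card ∧
      N C p (M + 1) = 0 ∧ N C p M < ν M ∧ ν' M ≤ N C p (M - 1))).card : ℝ) ≤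
      R * (8 / β * Real.exp (-((T : ℝ) / 4))) := by
    intro M hM
    obtain ⟨h3, h5, h7⟩ := hMpos M hM
    have hM0 : (0 : ℝ) < (M : ℝ) := by exact_mod_cast (by omega : 0 < M)
    have hνle : (ν M : ℝ) < ν₀ M + 1 := Nat.ceil_lt_add_one (hν₀pos M hM).le
    have hν1 : ν₀ M ≤ Real.exp ((M : ℝ) / 4) := min_le_left _ _
    have hν2 : ν₀ M ≤ β * x / (8 * M) := min_le_right _ _
    have hexp1 : 1 ≤ Real.exp ((M : ℝ) / 4) := Real.one_le_exp (by positivity)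
    have hMν : (M : ℝ) * (ν M : ℝ) ≤ β * x / 8 + M := by
      calc (M : ℝ) * (ν M : ℝ) ≤ M * (β * x / (8 * M) + 1) := by
            gcongr
            linarith
        _ = β * x / 8 + M := by field_simp
    have h8 := bEB hB (C := C) hβ hn a M (ν' M) (ν M) (by omega) (Nat.le_ceil _)
      (by linarith) (by
        rw [Nat.sub_sub]
        apply hsub2 0
        push_cast
        linarith)
    refine h8.trans ?_
    have h9 : Real.exp (-((M : ℝ) / 4)) ≤ Real.exp (-((T : ℝ) / 4)) :=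
      Real.exp_le_exp.mpr (by linarith)
    gcongr
  have B6 : ∀ t ∈ Finset.Icc T Λ, (((RF C).filter (fun p => N C p t ≤ b₁ t ∧
      N C p (t - 1) ≤ b₂ t ∧ TB C p t)).card : ℝ) ≤
      R * (Real.exp 2 * (Λ : ℝ) ^ 3 * Real.exp (-((T : ℝ) / 4))) := by
    intro t ht
    obtain ⟨h3, h5⟩ := mem_Icc.mp ht
    have h8 := bE4 h4 (C := C) t (b₁ t) (b₂ t) (by omega) (Nat.floor_le (Real.exp_pos _).le)
      (Nat.floor_le (Real.exp_pos _).le)
    refine h8.trans ?_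
    have h9 : Real.exp (-((t : ℝ) / 4)) ≤ Real.exp (-((T : ℝ) / 4)) := by
      apply Real.exp_le_exp.mpr
      have : (T : ℝ) ≤ (t : ℝ) := by exact_mod_cast h3
      linarith
    have h10 : (t : ℝ) ≤ (Λ : ℝ) := by exact_mod_cast h5
    gcongr
  -- union bound
  have hU := (card_le_card hcov).trans (le_trans (card_union_le _ _) (Nat.add_le_add_left
    (le_trans (card_union_le _ _) (Nat.add_le_add_left
    (le_trans (card_union_le _ _) (Nat.add_le_add_left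
    (le_trans (card_union_le _ _) (Nat.add_le_add card_biUnion_le
    (le_trans (card_union_le _ _) (Nat.add_le_add card_biUnion_le
      card_biUnion_le)))) _)) _)) _))
  have hU' : (((RF C).filter (fun p => ¬ Good C p)).card : ℝ) ≤
      (((RF C).filter (fun p => 8 * (leaves C p).card < Cᶜ.card)).card : ℝ) +
      ((((RF C).filter (fun p => a ≤ (leaves C p).card ∧
        ∀ s, T ≤ s → s ≤ Λ → N C p s = 0)).card : ℝ) +
      ((((RF C).filter (fun p => a ≤ (leaves C p).card ∧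
        ∀ s, 2 ≤ s → s ≤ D → N C p s = 0)).card : ℝ) +
      ((∑ M ∈ Finset.Ico T Λ, (((RF C).filter (fun p => a ≤ (leaves C p).card ∧
        N C p (M + 1) = 0 ∧ ν M ≤ N C p M)).card : ℝ)) +
      ((∑ M ∈ Finset.Ico T Λ, (((RF C).filter (fun p => a ≤ (leaves C p).card ∧
        N C p (M + 1) = 0 ∧ N C p M < ν M ∧ ν' M ≤ N C p (M - 1))).card : ℝ)) +
      ∑ t ∈ Finset.Icc T Λ, (((RF C).filter (fun p => N C p t ≤ b₁ t ∧
        N C p (t - 1) ≤ b₂ t ∧ TB C p t)).card : ℝ))))) := by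
    have h9 := (Nat.cast_le (α := ℝ)).mpr hU
    simp only [Nat.cast_add, Nat.cast_sum] at h9
    exact h9
  have hcardI : ((Finset.Ico T Λ).card : ℝ) ≤ (Λ : ℝ) + 1 := by
    rw [Nat.card_Ico]
    have : ((Λ - T : ℕ) : ℝ) ≤ (Λ : ℝ) := by exact_mod_cast Nat.sub_le _ _
    linarith
  have hcardJ : ((Finset.Icc T Λ).card : ℝ) ≤ (Λ : ℝ) + 1 := by
    rw [Nat.card_Icc]
    have : ((Λ + 1 - T : ℕ) : ℝ) ≤ ((Λ + 1 : ℕ) : ℝ) := by exact_mod_cast Nat.sub_le _ _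
    push_cast at this
    linarith
  have S4 : (∑ M ∈ Finset.Ico T Λ, (((RF C).filter (fun p => a ≤ (leaves C p).card ∧
        N C p (M + 1) = 0 ∧ ν M ≤ N C p M)).card : ℝ)) ≤ ((Λ : ℝ) + 1) *
      (R * (8 / β * (Real.exp (-((T : ℝ) / 4)) + 8 * Λ / (β * x)))) := by
    refine (Finset.sum_le_card_nsmul _ _ _ B4).trans ?_
    rw [nsmul_eq_mul]
    gcongr
  have S5 : (∑ M ∈ Finset.Ico T Λ, (((RF C).filter (fun p => a ≤ (leaves C p).card ∧
        N C p (M + 1) = 0 ∧ N C p M < ν M ∧ ν' M ≤ N C p (M - 1))).card : ℝ)) ≤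
      ((Λ : ℝ) + 1) * (R * (8 / β * Real.exp (-((T : ℝ) / 4)))) := by
    refine (Finset.sum_le_card_nsmul _ _ _ B5).trans ?_
    rw [nsmul_eq_mul]
    gcongr
  have S6 : (∑ t ∈ Finset.Icc T Λ, (((RF C).filter (fun p => N C p t ≤ b₁ t ∧
        N C p (t - 1) ≤ b₂ t ∧ TB C p t)).card : ℝ)) ≤
      ((Λ : ℝ) + 1) * (R * (Real.exp 2 * (Λ : ℝ) ^ 3 * Real.exp (-((T : ℝ) / 4)))) := by
    refine (Finset.sum_le_card_nsmul _ _ _ B6).trans ?_
    rw [nsmul_eq_mul]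
    gcongr
  refine hU'.trans ?_
  have hfin : R * (16 / (α * x)) + (R * (4 * T / (α * x) * (2 / β) ^ T) +
      (R * (4 / (α * β * x)) + (((Λ : ℝ) + 1) *
      (R * (8 / β * (Real.exp (-((T : ℝ) / 4)) + 8 * Λ / (β * x)))) +
      (((Λ : ℝ) + 1) * (R * (8 / β * Real.exp (-((T : ℝ) / 4)))) +
      ((Λ : ℝ) + 1) * (R * (Real.exp 2 * (Λ : ℝ) ^ 3 * Real.exp (-((T : ℝ) / 4)))))))) =
      R * (16 / (α * x) + 4 * T / (α * x) * (2 / β) ^ T + 4 / (α * β * x) +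
        ((Λ : ℝ) + 1) * (16 / β * Real.exp (-((T : ℝ) / 4)) + 64 * Λ / (β ^ 2 * x) +
          Real.exp 2 * (Λ : ℝ) ^ 3 * Real.exp (-((T : ℝ) / 4)))) := by
    have hx0 : x ≠ 0 := hn.ne'
    have hβ0 : β ≠ 0 := hβ.ne'
    have hα0 : α ≠ 0 := hα.ne'
    field_simp
    ring
  rw [← hfin]
  gcongr

end Pool.Agent.N375.RF
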